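import Pool.Agent.Run7.h912.DG.Growth
import Pool.Agent.Y806.DF.D

/-! Q1 for the sets with a large part in a progression of small rank. -/

set_option autoImplicit false

namespace Run7.h912.DG

open Finset Pool.Agent.Y806.DF
open scoped Classical Pointwise

/-- the box -/
noncomputable def bx {r : ℕ} (n : Fin r → ℕ) : Finset (Fin r → ℤ) := Fintype.piFinset (fun i => Finset.Ico (0:ℤ) (n i))

theorem mem_bx {r : ℕ} {n : Fin r → ℕ} {x : Fin r → ℤ} : x ∈ bx n ↔ ∀ i, 0 ≤ x i ∧ x i < n i := by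
  unfold bx
  rw [Fintype.mem_piFinset]
  simp only [Finset.mem_Ico]

theorem card_bx {r : ℕ} (n : Fin r → ℕ) : (bx n).card = ∏ i, n i := by
  unfold bx
  rw [Fintype.card_piFinset]
  simp

theorem card_bx_add {r : ℕ} (n : Fin r → ℕ) : (bx n + bx n).card ≤ 2 ^ r * (bx n).card := by
  have h1 : bx n + bx n ⊆ bx (fun i => 2 * n i) := by
    intro z hz
    obtain ⟨x, hx, y, hy, rfl⟩ := Finset.mem_add.1 hz
    rw [mem_bx] at hx hy ⊢
    intro i
    have := hx i
    have := hy i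
    rw [Pi.add_apply]
    push_cast
    omega
  refine (Finset.card_le_card h1).trans (le_of_eq ?_)
  rw [card_bx, card_bx, Finset.prod_mul_distrib]
  simp

theorem hull_bx {r : ℕ} (n : Fin r → ℕ) : hull (bx n) ⊆ (bx n : Set (Fin r → ℤ)) := by
  intro v hv
  have h1 : re v ∈ {w : Fin r → ℝ | ∀ i, 0 ≤ w i ∧ w i ≤ (n i : ℝ) - 1} := by
    refine convexHull_min ?_ ?_ hv
    · rintro _ ⟨x, hx, rfl⟩ i
      rw [Finset.mem_coe, mem_bx] at hx
      have := hx i
      unfold re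
      constructor
      · exact_mod_cast this.1
      · have h2 : x i ≤ (n i : ℤ) - 1 := by omega
        exact_mod_cast h2
    · have : {w : Fin r → ℝ | ∀ i, 0 ≤ w i ∧ w i ≤ (n i : ℝ) - 1} =
          Set.Icc (fun _ => (0:ℝ)) (fun i => (n i : ℝ) - 1) := by
        ext w
        simp only [Set.mem_ofPred_eq, Set.mem_Icc, Pi.le_def]
        exact ⟨fun h => ⟨fun i => (h i).1, fun i => (h i).2⟩, fun h i => ⟨h.1 i, h.2 i⟩⟩
      rw [this]
      exact convex_Icc _ _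
  rw [Finset.mem_coe, mem_bx]
  intro i
  have h2 := h1 i
  unfold re at h2
  have h3 : (0:ℤ) ≤ v i := by exact_mod_cast h2.1
  have h4 : v i ≤ (n i : ℤ) - 1 := by exact_mod_cast h2.2
  omega

theorem q1 {Γ : Type*} [AddCommGroup Γ] [DecidableEq Γ] (A : Finset Γ) (hA : A.Nonempty) (K : ℝ)
    (hK : ((A + A).card : ℝ) ≤ K * A.card) {r : ℕ} {n : Fin r → ℕ} {ψ : (Fin r → ℤ) →+ Γ} {g : Γ}
    (h1 : (r : ℝ) ≤ 6300 * Real.log K) (hn : ∀ i, 0 < n i)
    (h2 : (∏ i, (n i : ℝ)) ≤ K ^ 2000 * A.card)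
    (h3 : (A.card : ℝ) ≤ K ^ 750 * ((A.filter (fun a => ∃ x : Fin r → ℤ,
        (∀ i, 0 ≤ x i ∧ x i < n i) ∧ a = g + ψ x)).card : ℝ)) :
    ∃ (s : ℕ) (B : Set (Fin s → ℝ)) (θ : (Fin s → ℤ) →+ Γ) (H : AddSubgroup Γ) (T : Finset Γ),
      (s : ℝ) ≤ 500 * Real.log (2 * K ^ 4400) ∧ Body B ∧ Finite H ∧
      (lat B).ncard * Nat.card H ≤ A.card ∧ (T.card : ℝ) ≤ 5000 * (K ^ 4400) ^ 5000 ∧
      Cov B θ H T A := by
  have hK1 := one_le_K hA hK
  have hK0 : 0 < K := by linarith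
  have hmono : ∀ a b : ℕ, a ≤ b → K ^ a ≤ K ^ b := fun a b h => pow_le_pow_right₀ hK1 h
  have hne : (bx n).Nonempty := ⟨0, by rw [mem_bx]; intro i; exact ⟨le_rfl, by simpa using hn i⟩⟩
  have h2r : (2:ℝ) ^ r ≤ K ^ 4400 := by
    rw [← Real.log_le_log_iff (by positivity) (pow_pos hK0 _), Real.log_pow, Real.log_pow]
    have h5 : (r : ℝ) * Real.log 2 ≤ (6300 * Real.log K) * 0.6932 :=
      mul_le_mul h1 (by have := Real.log_two_lt_d9; linarith) (Real.log_nonneg (by norm_num))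
        (mul_nonneg (by norm_num) (Real.log_nonneg hK1))
    have h6 := Real.log_nonneg hK1
    push_cast
    nlinarith
  have hD : Data (K ^ 4400) A (bx n) ψ ⊥ g := by
    refine ⟨hne, inferInstance, ?_, ?_, ?_, ?_⟩
    · calc ((bx n + bx n).card : ℝ) ≤ (2:ℝ) ^ r * (bx n).card := by exact_mod_cast card_bx_add n
        _ ≤ _ := mul_le_mul_of_nonneg_right h2r (Nat.cast_nonneg _)
    · have h5 := Set.ncard_le_ncard (hull_bx n) (Finset.finite_toSet _)
      rw [Set.ncard_coe_finset] at h5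
      calc ((hull (bx n)).ncard : ℝ) ≤ 1 * (bx n).card := by rw [one_mul]; exact_mod_cast h5
        _ ≤ _ := mul_le_mul_of_nonneg_right (one_le_pow₀ hK1) (Nat.cast_nonneg _)
    · have h5 : Nat.card (⊥ : AddSubgroup Γ) = 1 := by simp
      rw [h5, Nat.cast_one, mul_one, card_bx]
      push_cast
      exact h2.trans (mul_le_mul_of_nonneg_right (hmono _ _ (by norm_num)) (Nat.cast_nonneg _))
    · have h5 : {a : Γ | a ∈ A ∧ ∃ x ∈ bx n, ∃ h ∈ (⊥ : AddSubgroup Γ), a = g + ψ x + h} =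
          ((A.filter (fun a => ∃ x : Fin r → ℤ,
            (∀ i, 0 ≤ x i ∧ x i < n i) ∧ a = g + ψ x) : Finset Γ) : Set Γ) := by
        ext a
        rw [Finset.coe_filter]
        constructor
        · rintro ⟨h6, x, hx, h, hh, e⟩
          rw [AddSubgroup.mem_bot] at hh
          exact ⟨h6, x, mem_bx.1 hx, by rw [e, hh, add_zero]⟩
        · rintro ⟨h6, x, hx, e⟩
          exact ⟨h6, x, mem_bx.2 hx, 0, AddSubgroup.zero_mem _, by rw [e, add_zero]⟩
      rw [h5, Set.ncard_coe_finset]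
      exact h3.trans (mul_le_mul_of_nonneg_right (hmono _ _ (by norm_num)) (Nat.cast_nonneg _))
  have hK' : ((A + A).card : ℝ) ≤ K ^ 4400 * A.card := by
    refine hK.trans (mul_le_mul_of_nonneg_right ?_ (Nat.cast_nonneg _))
    calc K = K ^ 1 := (pow_one K).symm
      _ ≤ K ^ 4400 := hmono _ _ (by norm_num)
  obtain ⟨s, B, θ, H, T, e1, e2, e3, e4, e5, e6⟩ := main hA hK' hD
  exact ⟨s, B, θ, H, T, e1, e2, e3, e4, e5, e6⟩

end Run7.h912.DG
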