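import Pool.Agent.Run7.h912.DG.Hered

/-! The number of residue classes modulo powers of two. -/

set_option autoImplicit false

namespace Run7.h912.DG

open Finset
open scoped Classical Pointwise

variable {d : ℕ}

/-- the digits at the places of `J` are a 2-adic isometry on `A'` -/
def Iso (J : Fin d → Finset ℕ) (A' : Finset (Fin d → ℤ)) : Prop :=
  ∀ x ∈ A', ∀ y ∈ A', ∀ m : ℕ,
    (∀ l, (2 : ℤ) ^ m ∣ x l - y l) ↔ (∀ l, (2 : ℤ) ^ m ∣ kp J x l - kp J y l)

theorem Iso.inj {J : Fin d → Finset ℕ} {A' : Finset (Fin d → ℤ)} (h : Iso J A') :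
    ∀ x ∈ A', ∀ y ∈ A', kp J x = kp J y → x = y := by
  intro x hx y hy h7
  funext l
  have h8 : ∀ m : ℕ, (2:ℤ) ^ m ∣ x l - y l := by
    intro m
    refine (h x hx y hy m).2 (fun l' => ?_) l
    have := congrFun h7 l'
    rw [this, sub_self]
    exact dvd_zero _
  by_contra hne
  have h9 : x l - y l ≠ 0 := sub_ne_zero.2 hne
  have h10 := Int.le_of_dvd (abs_pos.2 h9) ((dvd_abs _ _).2 (h8 (x l - y l).natAbs))
  have h11 : (x l - y l).natAbs < 2 ^ (x l - y l).natAbs := Nat.lt_two_pow_self
  have h12 : |x l - y l| = ((x l - y l).natAbs : ℤ) := (Int.natCast_natAbs _).symm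
  rw [h12] at h10
  have h13 : (((x l - y l).natAbs : ℕ) : ℤ) < 2 ^ (x l - y l).natAbs := by exact_mod_cast h11
  omega

theorem card_kp (T : Fin d → Finset ℕ) (X : Finset (Fin d → ℤ)) :
    (X.image (kp T)).card ≤ 2 ^ (∑ l, (T l).card) := by
  have h1 : (X.image (kp T)).card ≤
      (X.image (fun x => (plc T).filter (fun p => bit (x p.1) p.2 = 1))).card := by
    apply card_image_le_of
    intro x _ y _ hxy
    funext l
    unfold kp keep
    apply Finset.sum_congr rfl
    intro j hj
    have hp : (⟨l, j⟩ : Σ _ : Fin d, ℕ) ∈ plc T := by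
      unfold plc; rw [Finset.mem_sigma]; exact ⟨Finset.mem_univ _, hj⟩
    have h2 : bit (x l) j = 1 ↔ bit (y l) j = 1 := by
      have := Finset.ext_iff.1 hxy ⟨l, j⟩
      simp only [Finset.mem_filter] at this
      constructor
      · intro h; exact (this.1 ⟨hp, h⟩).2
      · intro h; exact (this.2 ⟨hp, h⟩).2
    rcases bit_mem (x l) j with h3 | h3 <;> rcases bit_mem (y l) j with h4 | h4
    · rw [h3, h4]
    · rw [h2.2 h4] at h3; omega
    · rw [h2.1 h3] at h4; omega
    · rw [h3, h4]
  refine h1.trans ?_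
  have h2 : X.image (fun x => (plc T).filter (fun p => bit (x p.1) p.2 = 1)) ⊆ (plc T).powerset := by
    intro Y hY
    obtain ⟨x, _, rfl⟩ := Finset.mem_image.1 hY
    exact Finset.mem_powerset.2 (Finset.filter_subset _ _)
  refine (Finset.card_le_card h2).trans (le_of_eq ?_)
  rw [Finset.card_powerset]
  unfold plc
  rw [Finset.card_sigma]

theorem keep_split (T : Finset ℕ) (m : ℕ) (a : ℤ) :
    keep T a = keep (T.filter (fun j => j < m)) a + keep (T.filter (fun j => m ≤ j)) a := by
  unfold keep
  rw [← Finset.sum_filter_add_sum_filter_not T (fun j => j < m)]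
  congr 1
  apply Finset.sum_congr _ (fun _ _ => rfl)
  ext j
  simp only [Finset.mem_filter, not_lt]

theorem keep_high (T : Finset ℕ) (m : ℕ) (a : ℤ) : (2:ℤ) ^ m ∣ keep (T.filter (fun j => m ≤ j)) a := by
  unfold keep
  apply Finset.dvd_sum
  intro j hj
  exact dvd_mul_of_dvd_right (pow_dvd_pow 2 (Finset.mem_filter.1 hj).2) _

theorem keep_low {T : Finset ℕ} {m : ℕ} {a b : ℤ} (h : (2:ℤ) ^ m ∣ a - b) :
    keep (T.filter (fun j => j < m)) a = keep (T.filter (fun j => j < m)) b := by
  unfold keep
  apply Finset.sum_congr rfl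
  intro j hj
  rw [bit_congr h (Finset.mem_filter.1 hj).2]

/-- the number of the residue classes -/
theorem Iso.growth {J : Fin d → Finset ℕ} {A' : Finset (Fin d → ℤ)} (h : Iso J A') (m : ℕ) :
    (A'.image (fun x l => x l % 2 ^ m)).card ≤ 2 ^ (∑ l, ((J l).filter (fun j => j < m)).card) ∧
    A'.card ≤ 2 ^ (∑ l, ((J l).filter (fun j => m ≤ j)).card) *
      (A'.image (fun x l => x l % 2 ^ m)).card := by
  constructor
  · refine le_trans ?_ (card_kp (fun l => (J l).filter (fun j => j < m)) A')
    apply card_image_le_of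
    intro x hx y hy hxy
    have h1 : ∀ l, (2:ℤ) ^ m ∣ kp J x l - kp J y l := by
      intro l
      unfold kp
      rw [keep_split (J l) m (x l), keep_split (J l) m (y l)]
      have h2 : keep ((J l).filter (fun j => j < m)) (x l) = keep ((J l).filter (fun j => j < m)) (y l) :=
        congrFun hxy l
      rw [h2]
      have := dvd_sub (keep_high (J l) m (x l)) (keep_high (J l) m (y l))
      rw [add_sub_add_left_eq_sub]
      exact this
    have h3 := (h x hx y hy m).2 h1
    funext l
    have h4 : y l ≡ x l [ZMOD 2 ^ m] := Int.modEq_iff_dvd.2 (h3 l)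
    exact h4.symm
  · apply Finset.card_le_mul_card_image
    intro a _
    rw [← Finset.card_image_of_injOn (f := kp (fun l => (J l).filter (fun j => m ≤ j)))]
    · exact card_kp _ _
    · intro x hx y hy hxy
      rw [Finset.mem_coe, Finset.mem_filter] at hx hy
      apply h.inj x hx.1 y hy.1
      funext l
      unfold kp
      rw [keep_split (J l) m (x l), keep_split (J l) m (y l)]
      have h2 : keep ((J l).filter (fun j => m ≤ j)) (x l) = keep ((J l).filter (fun j => m ≤ j)) (y l) :=
        congrFun hxy l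
      rw [h2, keep_low]
      have h3 : x l % 2 ^ m = y l % 2 ^ m := congrFun (hx.2.trans hy.2.symm) l
      exact (Int.modEq_iff_dvd).1 (Int.ModEq.symm h3)

end Run7.h912.DG
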