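import Pool.Agent.Run7.h912.DG.Zd

/-! The structure theorem. -/

set_option autoImplicit false

namespace Run7.h912.DG

open Real Finset
open scoped Classical Pointwise

variable {d : ℕ}

theorem triple {G : Type*} [AddCommGroup G] [DecidableEq G] {A : Finset G} (hA : A.Nonempty) {K : ℝ}
    (hK : ((A + A).card : ℝ) ≤ K * A.card) :
    ((A + A.image (fun x => x + x)).card : ℝ) ≤ K ^ 3 * A.card := by
  have hA0 : (0:ℝ) < A.card := by exact_mod_cast hA.card_pos
  have h1 : A + A.image (fun x => x + x) ⊆ 3 • A := by
    have : (3 : ℕ) • A = A + (A + A) := by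
      rw [show (3:ℕ) = 1 + (1 + 1) by norm_num, add_nsmul, add_nsmul, one_nsmul]
    rw [this]
    apply Finset.add_subset_add_left
    intro x hx
    obtain ⟨y, hy, rfl⟩ := Finset.mem_image.1 hx
    exact Finset.add_mem_add hy hy
  have h2 : ((3 • A : Finset G).card : ℝ) ≤ (((A + A).card : ℝ) / A.card) ^ 3 * A.card := by
    have h := Finset.pluennecke_ruzsa_inequality_nsmul_add hA A 3
    have h' := (NNRat.cast_le (K := ℝ)).2 h
    push_cast at h'
    exact h'
  calc ((A + A.image (fun x => x + x)).card : ℝ) ≤ ((3 • A : Finset G).card : ℝ) := by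
        exact_mod_cast Finset.card_le_card h1
    _ ≤ (((A + A).card : ℝ) / A.card) ^ 3 * A.card := h2
    _ ≤ K ^ 3 * A.card := by
        apply mul_le_mul_of_nonneg_right _ hA0.le
        apply pow_le_pow_left₀ (by positivity)
        rw [div_le_iff₀ hA0]; exact hK

theorem fib_card {M : ℕ} {F : Finset ℕ} (hF : F ⊆ Finset.range (d * M)) :
    ∑ l : Fin d, ((Finset.range M).filter (fun j => d * j + l ∈ F)).card = F.card := by
  have h1 : F.card = ∑ l : Fin d, (F.filter (fun k => k % d = l)).card := by
    rcases Nat.eq_zero_or_pos d with h0 | hd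
    · subst h0
      have : F = ∅ := by
        apply Finset.subset_empty.1
        simpa using hF
      simp [this]
    · have := Finset.card_eq_sum_card_fiberwise (s := F) (t := (Finset.univ : Finset (Fin d)))
        (f := fun k => (⟨k % d, Nat.mod_lt _ hd⟩ : Fin d)) (fun k _ => Finset.mem_coe.2 (Finset.mem_univ _))
      rw [this]
      apply Finset.sum_congr rfl
      intro l _
      congr 1
      ext k
      simp only [Finset.mem_filter, Fin.ext_iff]
  rw [h1]
  apply Finset.sum_congr rfl
  intro l _
  have hd : 0 < d := lt_of_le_of_lt (Nat.zero_le _) l.2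
  apply Finset.card_bij (fun j _ => d * j + l)
  · intro j hj
    rw [Finset.mem_filter] at hj ⊢
    refine ⟨hj.2, ?_⟩
    rw [Nat.mul_add_mod, Nat.mod_eq_of_lt l.2]
  · intro a _ b _ h
    have : d * a = d * b := by omega
    exact Nat.eq_of_mul_eq_mul_left hd this
  · intro k hk
    rw [Finset.mem_filter] at hk
    have h2 := Nat.div_add_mod k d
    rw [hk.2] at h2
    refine ⟨k / d, ?_, h2⟩
    rw [Finset.mem_filter, Finset.mem_range]
    refine ⟨?_, by rw [h2]; exact hk.1⟩
    have := Finset.mem_range.1 (hF hk.1)
    exact Nat.div_lt_of_lt_mul this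

theorem core (A : Finset (Fin d → ℤ)) (hA : A.Nonempty) (K : ℝ)
    (hK : ((A + A).card : ℝ) ≤ K * A.card) :
    ∃ (J : Fin d → Finset ℕ) (A' : Finset (Fin d → ℤ)), A' ⊆ A ∧
      (A.card : ℝ) ≤ K ^ 750 * A'.card ∧
      (2 : ℝ) ^ (∑ l, (J l).card) ≤ K ^ 2000 * A.card ∧
      ((∑ l, ((J l).filter (fun j => j + 1 ∉ J l)).card : ℕ) : ℝ) ≤ 6300 * Real.log K ∧
      (∀ l, ∀ j ∈ J l, ∃ x ∈ A, ∃ y ∈ A, bit (x l) j ≠ bit (y l) j) ∧
      ∀ x ∈ A', ∀ y ∈ A', ∀ m : ℕ, (∀ l, (2 : ℤ) ^ m ∣ x l - y l) ↔
        (∀ l, (2 : ℤ) ^ m ∣ keep (J l) (x l) - keep (J l) (y l)) := by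
  have hA0 : (0:ℝ) < A.card := by exact_mod_cast hA.card_pos
  have hAA0 : (0:ℝ) < (A + A).card := by exact_mod_cast (hA.add hA).card_pos
  have hK1 : 1 ≤ K := by
    have h1 : (A.card : ℝ) ≤ (A + A).card := by exact_mod_cast Finset.card_le_card_add_right hA
    by_contra h
    have h2 : K * A.card < 1 * A.card := mul_lt_mul_of_pos_right (not_le.1 h) hA0
    linarith
  have hK0 : 0 < K := by linarith
  have hlogK : 0 ≤ Real.log K := Real.log_nonneg hK1
  have hdiff : Real.log ((A + A).card : ℝ) - Real.log (A.card : ℝ) ≤ Real.log K := by
    have h1 := Real.log_le_log hAA0 hK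
    rw [Real.log_mul hK0.ne' hA0.ne'] at h1
    linarith
  have hdiff3 : Real.log ((A + A.image (fun x => x + x)).card : ℝ) - Real.log (A.card : ℝ) ≤
      3 * Real.log K := by
    have h0 : (0:ℝ) < (A + A.image (fun x => x + x)).card := by
      exact_mod_cast (hA.add (hA.image _)).card_pos
    have h1 := Real.log_le_log h0 (triple hA hK)
    rw [Real.log_mul (by positivity) hA0.ne', Real.log_pow] at h1
    push_cast at h1
    linarith
  obtain ⟨M, hM⟩ := exists_sep A
  have hΓ := chain_Gam d
  set N := d * M with hN
  set F := free (Gam d) A N with hF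
  have hFN : F ⊆ Finset.range N := Finset.filter_subset _ _
  set J : Fin d → Finset ℕ := fun l => (Finset.range M).filter (fun j => d * j + l ∈ F) with hJ
  obtain ⟨A', hA'A, hA'c, hA'⟩ := prune hΓ hA F N
  have hsumJ : ∑ l, (J l).card = F.card := fib_card hFN
  refine ⟨J, A', hA'A, ?_, ?_, ?_, ?_, ?_⟩
  · -- the size of `A'`
    have h1 := sum_frozen hΓ hA hM
    have h2 : ∑ k ∈ (Finset.range N).filter (fun k => k ∉ F), hE (Gam d) k A ≤ 750 * Real.log K :=
      h1.trans (mul_le_mul_of_nonneg_left hdiff (by norm_num))
    have h3 : Real.exp (-(750 * Real.log K)) ≤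
        Real.exp (-∑ k ∈ (Finset.range N).filter (fun k => k ∉ F), hE (Gam d) k A) :=
      Real.exp_le_exp.2 (neg_le_neg h2)
    have h4 : Real.exp (-(750 * Real.log K)) = (K ^ 750)⁻¹ := by
      rw [Real.exp_neg]
      congr 1
      have : (750 : ℝ) * Real.log K = Real.log (K ^ 750) := by
        rw [Real.log_pow]; norm_num
      rw [this, Real.exp_log (by positivity)]
    rw [h4] at h3
    have h5 : (A.card : ℝ) * (K ^ 750)⁻¹ ≤ A'.card :=
      (mul_le_mul_of_nonneg_left h3 hA0.le).trans hA'c
    rw [← div_eq_mul_inv, div_le_iff₀ (by positivity)] at h5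
    linarith
  · -- the number of free digits
    rw [hsumJ]
    have h1 := card_free hΓ hA hM
    have h2 : (F.card : ℝ) * Real.log 2 ≤ Real.log (A.card : ℝ) + 2000 * Real.log K :=
      h1.trans (by linarith)
    have h3 : Real.log ((2:ℝ) ^ F.card) ≤ Real.log (K ^ 2000 * A.card) := by
      rw [Real.log_pow, Real.log_mul (by positivity) hA0.ne', Real.log_pow]
      push_cast
      linarith
    exact (Real.log_le_log_iff (by positivity) (by positivity)).1 h3
  · -- the number of exits
    have h1 := exits hΓ hA hM (fun k x => dbl_Gam d k x) (fun x hx => by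
      funext l
      have := congrFun hx l
      simp only [Pi.add_apply, Pi.zero_apply] at this
      simp only [Pi.zero_apply]
      omega)
    have h2 : ∑ l, ((J l).filter (fun j => j + 1 ∉ J l)).card =
        (F.filter (fun k => k + d ∉ F)).card := by
      rw [← fib_card (d := d) (M := M) (F := F.filter (fun k => k + d ∉ F))
        ((Finset.filter_subset _ _).trans hFN)]
      apply Finset.sum_congr rfl
      intro l _
      congr 1
      ext j
      simp only [hJ, Finset.mem_filter, Finset.mem_range]
      have e1 : d * (j + 1) + (l : ℕ) = d * j + l + d := by ring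
      rw [e1]
      constructor
      · rintro ⟨⟨h3, h4⟩, h5⟩
        refine ⟨h3, h4, fun h6 => h5 ⟨?_, h6⟩⟩
        have h7 := Finset.mem_range.1 (hFN h6)
        rw [hN, ← e1] at h7
        have hd : 0 < d := lt_of_le_of_lt (Nat.zero_le _) l.2
        exact Nat.lt_of_mul_lt_mul_left (a := d) (by omega)
      · rintro ⟨h3, h4, h5⟩
        exact ⟨⟨h3, h4⟩, fun h6 => h5 h6.2⟩
    rw [h2]
    calc (((F.filter (fun k => k + d ∉ F)).card : ℕ) : ℝ) ≤ _ := h1
      _ ≤ 2100 * (3 * Real.log K) := mul_le_mul_of_nonneg_left hdiff3 (by norm_num)
      _ = 6300 * Real.log K := by ring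
  · -- free digits vary
    intro l j hj
    have hjF : d * j + l ∈ F := (Finset.mem_filter.1 hj).2
    by_contra hcon
    push Not at hcon
    have hV : VV (Gam d) (d * j + l) A = 1 := by
      unfold VV
      have h1 : ∀ x ∈ A, (2 * pp (Gam d) (d * j + l) A x - 1) ^ 2 = 1 := by
        intro x hx
        have h2 : pp (Gam d) (d * j + l) A x = 1 := by
          unfold pp pr
          have h3 : num A (rel (Gam d (d * j + l + 1))) x = num A (rel (Gam d (d * j + l))) x := by
            unfold num
            congr 2
            ext y
            simp only [Finset.mem_filter, and_congr_right_iff]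
            intro hy
            unfold rel
            constructor
            · intro h; exact hΓ.anti _ h
            · intro h l'
              have h4 := h l'
              rw [ex_succ l'.2]
              split_ifs with h5
              · rw [Nat.mul_add_mod, Nat.mod_eq_of_lt l.2] at h5
                have h6 : l' = l := Fin.ext h5.symm
                subst h6
                rw [ex_eq l'.2 l'.2, if_neg (lt_irrefl _)] at h4 ⊢
                exact bit_step h4 (hcon y hy x hx)
              · rw [add_zero]; exact h4
          rw [h3]
          exact div_self (num_pos (rel_equiv _) hx).ne'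
        rw [h2]; norm_num
      rw [Finset.sum_congr rfl h1]
      simp only [Finset.sum_const, nsmul_eq_mul, mul_one]
      field_simp
    have := (Finset.mem_filter.1 hjF).2
    rw [hV] at this
    norm_num at this
  · -- the isometry
    intro x hx y hy m
    constructor
    · intro h l
      exact keep_dvd (h l)
    · intro h
      have hle : ∀ k, ∀ c, Gam d (k + c) ≤ Gam d k := by
        intro k c
        induction c with
        | zero => exact le_rfl
        | succ c ih => exact (hΓ.anti _).trans ih
      have key : ∀ k ≤ d * m, x - y ∈ Gam d k := by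
        intro k
        induction k with
        | zero => intro _; rw [hΓ.top]; trivial
        | succ k ih =>
          intro hk
          have h1 := ih (by omega)
          by_cases hkN : k < N
          · by_cases hkF : k ∈ F
            · have hd : 0 < d := by
                rcases Nat.eq_zero_or_pos d with h0 | h0
                · rw [hN, h0] at hkN; simp at hkN
                · exact h0
              have hr : k % d < d := Nat.mod_lt _ hd
              have hkd := Nat.div_add_mod k d
              set l : Fin d := ⟨k % d, hr⟩ with hl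
              set j := k / d with hj
              have hk' : d * j + (l : ℕ) = k := hkd
              have hjm : j < m := by
                apply Nat.lt_of_mul_lt_mul_left (a := d)
                omega
              have hjJ : j ∈ J l := by
                rw [hJ, Finset.mem_filter, Finset.mem_range]
                refine ⟨?_, by rw [hk']; exact hkF⟩
                apply Nat.lt_of_mul_lt_mul_left (a := d)
                omega
              have h2 := h1 l
              rw [← hk', ex_eq l.2 l.2, if_neg (lt_irrefl _)] at h2
              have h3 : (2:ℤ) ^ (j + 1) ∣ keep (J l) (x l) - keep (J l) (y l) :=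
                dvd_trans (pow_dvd_pow 2 hjm) (h l)
              have h4 := keep_bit h2 hjJ h3
              have h5 := bit_step h2 h4
              intro l'
              rw [ex_succ l'.2]
              split_ifs with h6
              · have h7 : l' = l := Fin.ext h6.symm
                subst h7
                rw [← hk', ex_eq l.2 l.2, if_neg (lt_irrefl _)]
                exact h5
              · rw [add_zero]; exact h1 l'
            · exact hA' k hkN hkF y hy x hx h1
          · have h2 : x - y ∈ Gam d N := by
              obtain ⟨c, hc⟩ := Nat.exists_eq_add_of_le (not_lt.1 hkN)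
              rw [hc] at h1
              exact hle N c h1
            have h3 := hM y (hA'A hy) x (hA'A hx) h2
            rw [h3, sub_self]
            exact (Gam d (k + 1)).zero_mem
      have h1 := key (d * m) le_rfl
      rw [mem_Gam_mul] at h1
      exact h1

end Run7.h912.DG
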