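import Pool.Agent.Run7.h912.DG.Part

/-! The chain rule for sums along a chain of subgroups of index two. -/

set_option autoImplicit false

namespace Run7.h912.DG

open Real Finset
open scoped Classical Pointwise

variable {G : Type*} [AddCommGroup G]

/-- a chain of subgroups, each of index at most two in the previous one -/
structure Chain (Γ : ℕ → AddSubgroup G) : Prop where
  top : Γ 0 = ⊤
  anti : ∀ k, Γ (k + 1) ≤ Γ k
  two : ∀ k, ∀ a ∈ Γ k, ∀ b ∈ Γ k, a ∉ Γ (k + 1) → b ∉ Γ (k + 1) → a + b ∈ Γ (k + 1)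

/-- congruence modulo a subgroup -/
def rel (H : AddSubgroup G) (x y : G) : Prop := y - x ∈ H

theorem rel_equiv (H : AddSubgroup G) : Equivalence (rel H) :=
  ⟨fun x => by unfold rel; simp, fun {x y} h => by
    unfold rel at *
    rw [← neg_sub]; exact H.neg_mem h, fun {x y z} h h' => by
    unfold rel at *
    have := H.add_mem h' h
    rwa [sub_add_sub_cancel] at this⟩

variable {Γ : ℕ → AddSubgroup G}

theorem Chain.isTwo (hΓ : Chain Γ) (k : ℕ) : Two (rel (Γ k)) (rel (Γ (k + 1))) where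
  eqR := rel_equiv _
  eqS := rel_equiv _
  sub := fun x y h => hΓ.anti k h
  two := fun x y z hy hz hy' hz' => by
    unfold rel at *
    have h1 : z - y = (z - x) + -(y - x) := by abel
    rw [h1]
    exact hΓ.two k _ hz _ ((Γ k).neg_mem hy) hz' (fun h => hy' (by simpa using (Γ (k+1)).neg_mem h))

/-- the proportion of the next class -/
noncomputable def pp (Γ : ℕ → AddSubgroup G) (k : ℕ) (A : Finset G) (x : G) : ℝ :=
  pr A (rel (Γ k)) (rel (Γ (k + 1))) x

/-- congruence of sums -/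
def rels (H : AddSubgroup G) (z z' : G × G) : Prop := rel H (z.1 + z.2) (z'.1 + z'.2)

/-- congruence of pairs -/
def relb (H : AddSubgroup G) (z z' : G × G) : Prop := rel H z.1 z'.1 ∧ rel H z.2 z'.2

theorem rels_equiv (H : AddSubgroup G) : Equivalence (rels H) :=
  ⟨fun _ => (rel_equiv H).refl _, fun h => (rel_equiv H).symm h, fun h h' => (rel_equiv H).trans h h'⟩

theorem relb_equiv (H : AddSubgroup G) : Equivalence (relb H) :=
  ⟨fun _ => ⟨(rel_equiv H).refl _, (rel_equiv H).refl _⟩,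
    fun h => ⟨(rel_equiv H).symm h.1, (rel_equiv H).symm h.2⟩,
    fun h h' => ⟨(rel_equiv H).trans h.1 h'.1, (rel_equiv H).trans h.2 h'.2⟩⟩

theorem Chain.isTwo_sum (hΓ : Chain Γ) (k : ℕ) : Two (rels (Γ k)) (rels (Γ (k + 1))) where
  eqR := rels_equiv _
  eqS := rels_equiv _
  sub := fun _ _ h => (hΓ.isTwo k).sub _ _ h
  two := fun _ _ _ a b c d => (hΓ.isTwo k).two _ _ _ a b c d

theorem relb_sub (H : AddSubgroup G) (z z' : G × G) (h : relb H z z') : rels H z z' := by
  unfold rels rel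
  have h1 : z'.1 + z'.2 - (z.1 + z.2) = (z'.1 - z.1) + (z'.2 - z.2) := by abel
  rw [h1]
  exact H.add_mem h.1 h.2

variable {A B : Finset G}

theorem mixblock (hΓ : Chain Γ) (k : ℕ) {z : G × G} (hz : z ∈ A ×ˢ B) :
    pr (A ×ˢ B) (relb (Γ k)) (fun z z' => relb (Γ k) z z' ∧ rels (Γ (k + 1)) z z') z =
      mix (pp Γ k A z.1) (pp Γ k B z.2) := by
  obtain ⟨x, y⟩ := z
  obtain ⟨hx, hy⟩ := Finset.mem_product.1 hz
  simp only at hx hy
  set R := rel (Γ k) with hR
  set S := rel (Γ (k + 1)) with hS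
  have h2 : Two R S := hΓ.isTwo k
  have e1 : num (A ×ˢ B) (relb (Γ k)) (x, y) = num A R x * num B R y := by
    unfold num
    rw [← Nat.cast_mul, ← Finset.card_product]
    congr 2
    ext w
    simp only [Finset.mem_filter, Finset.mem_product, relb]
    tauto
  have e2 : num (A ×ˢ B) (fun z z' => relb (Γ k) z z' ∧ rels (Γ (k + 1)) z z') (x, y) =
      num A S x * num B S y + (num A R x - num A S x) * (num B R y - num B S y) := by
    have hset : (A ×ˢ B).filter (fun z' => relb (Γ k) (x, y) z' ∧ rels (Γ (k + 1)) (x, y) z') =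
        (A.filter (S x)) ×ˢ (B.filter (S y)) ∪
          (A.filter (fun w => R x w ∧ ¬ S x w)) ×ˢ (B.filter (fun w => R y w ∧ ¬ S y w)) := by
      ext ⟨w, w'⟩
      simp only [Finset.mem_filter, Finset.mem_product, Finset.mem_union]
      simp only [relb, rels, hR, hS, rel]
      have h1 : w + w' - (x + y) = (w - x) + (w' - y) := by abel
      rw [h1]
      constructor
      · rintro ⟨⟨hw, hw'⟩, ⟨hr, hr'⟩, hs⟩
        by_cases hsx : w - x ∈ Γ (k + 1)
        · left
          refine ⟨⟨hw, hsx⟩, hw', ?_⟩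
          have := (Γ (k+1)).sub_mem hs hsx
          simpa using this
        · right
          refine ⟨⟨hw, hr, hsx⟩, hw', hr', fun hsy => hsx ?_⟩
          have := (Γ (k+1)).sub_mem hs hsy
          simpa using this
      · rintro (⟨⟨hw, hs⟩, hw', hs'⟩ | ⟨⟨hw, hr, hs⟩, hw', hr', hs'⟩)
        · exact ⟨⟨hw, hw'⟩, ⟨hΓ.anti k hs, hΓ.anti k hs'⟩, (Γ (k+1)).add_mem hs hs'⟩
        · exact ⟨⟨hw, hw'⟩, ⟨hr, hr'⟩, hΓ.two k _ hr _ hr' hs hs'⟩
    have hd : Disjoint ((A.filter (S x)) ×ˢ (B.filter (S y)))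
          ((A.filter (fun w => R x w ∧ ¬ S x w)) ×ˢ (B.filter (fun w => R y w ∧ ¬ S y w))) := by
      rw [Finset.disjoint_left]
      rintro ⟨w, w'⟩ h h'
      simp only [Finset.mem_filter, Finset.mem_product] at h h'
      exact h'.1.2.2 h.1.2
    have hcA : ∀ (C : Finset G) (u : G), ((C.filter (fun w => R u w ∧ ¬ S u w)).card : ℝ) =
        num C R u - num C S u := by
      intro C u
      have h1 : C.filter (R u) = C.filter (S u) ∪ C.filter (fun w => R u w ∧ ¬ S u w) := by
        ext w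
        simp only [Finset.mem_filter, Finset.mem_union]
        constructor
        · rintro ⟨hw, hr⟩
          by_cases hs : S u w
          · exact Or.inl ⟨hw, hs⟩
          · exact Or.inr ⟨hw, hr, hs⟩
        · rintro (⟨hw, hs⟩ | ⟨hw, hr, hs⟩)
          · exact ⟨hw, h2.sub _ _ hs⟩
          · exact ⟨hw, hr⟩
      have hd : Disjoint (C.filter (S u)) (C.filter (fun w => R u w ∧ ¬ S u w)) := by
        rw [Finset.disjoint_filter]
        rintro w _ hs ⟨_, hs'⟩
        exact hs' hs
      unfold num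
      rw [h1, Finset.card_union_of_disjoint hd]
      push_cast; ring
    have e0 : num (A ×ˢ B) (fun z z' => relb (Γ k) z z' ∧ rels (Γ (k + 1)) z z') (x, y) =
        ((((A.filter (S x)) ×ˢ (B.filter (S y)) ∪
          (A.filter (fun w => R x w ∧ ¬ S x w)) ×ˢ (B.filter (fun w => R y w ∧ ¬ S y w))).card : ℕ)
            : ℝ) := by
      unfold num
      rw [← hset]
      congr!
    rw [e0, Finset.card_union_of_disjoint hd, Finset.card_product, Finset.card_product]
    push_cast
    rw [hcA A x, hcA B y]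
    rfl
  have e3 : pp Γ k A x = num A S x / num A R x := rfl
  have e4 : pp Γ k B y = num B S y / num B R y := rfl
  unfold pr
  rw [e1, e2, e3, e4]
  unfold mix
  have h3 := num_pos h2.eqR hx
  have h4 := num_pos h2.eqR hy
  field_simp

/-- the step inequality -/
theorem step (hΓ : Chain Γ) (k : ℕ) :
    ∑ z ∈ A ×ˢ B, Real.log (pr (A ×ˢ B) (rels (Γ k)) (rels (Γ (k + 1))) z) ≤
      ∑ z ∈ A ×ˢ B, Real.log (mix (pp Γ k A z.1) (pp Γ k B z.2)) := by
  refine (gibbs (relb_equiv (Γ k)) (hΓ.isTwo_sum k) (relb_sub (Γ k))).trans (le_of_eq ?_)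
  apply Finset.sum_congr rfl
  intro z hz
  rw [mixblock hΓ k hz]

theorem tele {α : Type*} {Ω : Finset α} {R : ℕ → α → α → Prop} (hR : ∀ k, Equivalence (R k))
    {z : α} (hz : z ∈ Ω) (N : ℕ) :
    ∑ k ∈ Finset.range N, Real.log (pr Ω (R k) (R (k + 1)) z) =
      Real.log (num Ω (R N) z) - Real.log (num Ω (R 0) z) := by
  rw [← Finset.sum_range_sub (fun k => Real.log (num Ω (R k) z))]
  apply Finset.sum_congr rfl
  intro k _
  unfold pr
  rw [Real.log_div (num_pos (hR _) hz).ne' (num_pos (hR _) hz).ne']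

theorem num_top {α : Type*} {Ω : Finset α} {R : α → α → Prop} (h : ∀ x y, R x y) (z : α) :
    num Ω R z = Ω.card := by
  unfold num
  rw [Finset.filter_true_of_mem (fun w _ => h z w)]

/-- number of representations -/
theorem rep_sum [DecidableEq G] (A B : Finset G) :
    ∑ z ∈ A ×ˢ B, 1 / num (A ×ˢ B) (fun z z' : G × G => z.1 + z.2 = z'.1 + z'.2) z =
      ((A + B).card : ℝ) := by
  have hmap : ∀ z ∈ A ×ˢ B, z.1 + z.2 ∈ A + B := fun z hz =>
    Finset.add_mem_add (Finset.mem_product.1 hz).1 (Finset.mem_product.1 hz).2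
  rw [← Finset.sum_fiberwise_of_maps_to hmap]
  rw [Finset.cast_card]
  apply Finset.sum_congr rfl
  intro s hs
  have h1 : ∀ z ∈ (A ×ˢ B).filter (fun z => z.1 + z.2 = s),
      1 / num (A ×ˢ B) (fun z z' : G × G => z.1 + z.2 = z'.1 + z'.2) z =
      1 / (((A ×ˢ B).filter (fun z => z.1 + z.2 = s)).card : ℝ) := by
    intro z hz
    unfold num
    congr 3
    ext w
    simp only [Finset.mem_filter] at hz ⊢
    rw [hz.2]
    constructor
    · rintro ⟨a, b⟩; exact ⟨a, b.symm⟩
    · rintro ⟨a, b⟩; exact ⟨a, b.symm⟩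
  rw [Finset.sum_congr rfl h1, Finset.sum_const, nsmul_eq_mul]
  have hpos : (0:ℝ) < ((A ×ˢ B).filter (fun z => z.1 + z.2 = s)).card := by
    obtain ⟨a, ha, b, hb, hab⟩ := Finset.mem_add.1 hs
    exact_mod_cast Finset.card_pos.2 ⟨(a, b), by simp [ha, hb, hab]⟩
  field_simp

theorem sum_upper [DecidableEq G] (H : AddSubgroup G) (hA : A.Nonempty) (hB : B.Nonempty) :
    ∑ z ∈ A ×ˢ B, (Real.log ((A ×ˢ B).card : ℝ) - Real.log (num (A ×ˢ B) (rels H) z)) ≤
      ((A ×ˢ B).card : ℝ) * Real.log ((A + B).card : ℝ) := by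
  set Ω := A ×ˢ B with hΩ
  set rep := num Ω (fun z z' : G × G => z.1 + z.2 = z'.1 + z'.2) with hrep
  have hΩ0 : (0:ℝ) < Ω.card := by
    exact_mod_cast Finset.card_pos.2 (hA.product hB)
  have hS0 : (0:ℝ) < (A + B).card := by
    exact_mod_cast Finset.card_pos.2 (hA.add hB)
  have heq : Equivalence (fun z z' : G × G => z.1 + z.2 = z'.1 + z'.2) :=
    ⟨fun _ => rfl, fun h => h.symm, fun h h' => h.trans h'⟩
  have hrep0 : ∀ z ∈ Ω, 0 < rep z := fun z hz => num_pos heq hz
  have h1 : ∀ z ∈ Ω, Real.log (Ω.card : ℝ) - Real.log (num Ω (rels H) z) ≤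
      Real.log ((A + B).card : ℝ) + ((Ω.card : ℝ) / ((A + B).card : ℝ) * (1 / rep z) - 1) := by
    intro z hz
    have hle : rep z ≤ num Ω (rels H) z := by
      apply num_mono
      intro x y hxy
      unfold rels
      rw [hxy]
      exact (rel_equiv H).refl _
    have h2 : Real.log (rep z) ≤ Real.log (num Ω (rels H) z) := Real.log_le_log (hrep0 z hz) hle
    have h3 := Real.log_le_sub_one_of_pos
      (show 0 < (Ω.card : ℝ) / ((A + B).card : ℝ) * (1 / rep z) by
        have := hrep0 z hz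
        positivity)
    rw [Real.log_mul (by positivity) (one_div_pos.2 (hrep0 z hz)).ne', Real.log_div hΩ0.ne' hS0.ne',
      one_div, Real.log_inv] at h3
    rw [one_div]
    linarith
  refine (Finset.sum_le_sum h1).trans (le_of_eq ?_)
  rw [Finset.sum_add_distrib, Finset.sum_sub_distrib, ← Finset.mul_sum, rep_sum]
  rw [Finset.sum_const, Finset.sum_const, nsmul_eq_mul, nsmul_eq_mul]
  field_simp
  ring

/-- normalised conditional entropy of the `k`-th digit -/
noncomputable def hE (Γ : ℕ → AddSubgroup G) (k : ℕ) (A : Finset G) : ℝ :=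
  (∑ x ∈ A, binEntropy (pp Γ k A x)) / A.card

/-- mean square bias of the `k`-th digit -/
noncomputable def VV (Γ : ℕ → AddSubgroup G) (k : ℕ) (A : Finset G) : ℝ :=
  (∑ x ∈ A, (2 * pp Γ k A x - 1) ^ 2) / A.card

/-- cost of the `k`-th digit of a sum -/
noncomputable def cst (Γ : ℕ → AddSubgroup G) (k : ℕ) (A B : Finset G) : ℝ :=
  (∑ x ∈ A, ∑ y ∈ B, (binEntropy (mix (pp Γ k A x) (pp Γ k B y)) - binEntropy (pp Γ k A x))) /
    (A.card * B.card)

theorem log_sum_eq (hΓ : Chain Γ) (k : ℕ) :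
    ∑ x ∈ A, -Real.log (pp Γ k A x) = ∑ x ∈ A, binEntropy (pp Γ k A x) := by
  unfold pp
  rw [star (hΓ.isTwo k) (fun p => -Real.log p)]
  apply Finset.sum_congr rfl
  intro x _
  rw [binEntropy_eq_negMulLog_add_negMulLog_one_sub, negMulLog, negMulLog]
  ring

theorem mix_sum_eq (hΓ : Chain Γ) (k : ℕ) :
    ∑ x ∈ A, ∑ y ∈ B, -Real.log (mix (pp Γ k A x) (pp Γ k B y)) =
      ∑ x ∈ A, ∑ y ∈ B, binEntropy (mix (pp Γ k A x) (pp Γ k B y)) := by
  have h1 : ∀ x ∈ A, ∑ y ∈ B, -Real.log (mix (pp Γ k A x) (pp Γ k B y)) =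
      ∑ y ∈ B, (pp Γ k B y * -Real.log (mix (pp Γ k A x) (pp Γ k B y)) +
        (1 - pp Γ k B y) * -Real.log (mix (pp Γ k A x) (1 - pp Γ k B y))) := by
    intro x _
    exact star (hΓ.isTwo k) (fun q => -Real.log (mix (pp Γ k A x) q))
  rw [Finset.sum_congr rfl h1]
  have h2 := star (Ω := A) (hΓ.isTwo k) (fun p => ∑ y ∈ B, (pp Γ k B y * -Real.log (mix p (pp Γ k B y)) +
        (1 - pp Γ k B y) * -Real.log (mix p (1 - pp Γ k B y))))
  have h3 : ∀ x, pp Γ k A x = pr A (rel (Γ k)) (rel (Γ (k + 1))) x := fun _ => rfl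
  simp only [← h3] at h2
  rw [h2]
  apply Finset.sum_congr rfl
  intro x _
  rw [Finset.mul_sum, Finset.mul_sum, ← Finset.sum_add_distrib]
  apply Finset.sum_congr rfl
  intro y _
  set p := pp Γ k A x
  set q := pp Γ k B y
  have e1 : mix p (1 - q) = 1 - mix p q := by unfold mix; ring
  have e2 : mix (1 - p) q = 1 - mix p q := by unfold mix; ring
  have e3 : mix (1 - p) (1 - q) = mix p q := by unfold mix; ring
  rw [e1, e2, e3, binEntropy_eq_negMulLog_add_negMulLog_one_sub, negMulLog, negMulLog]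
  have e4 : mix p q = p * q + (1 - p) * (1 - q) := rfl
  linear_combination (Real.log (mix p q) - Real.log (1 - mix p q)) * e4

theorem total [DecidableEq G] (hΓ : Chain Γ) (hA : A.Nonempty) (hB : B.Nonempty) (N : ℕ) :
    ∑ k ∈ Finset.range N, (cst Γ k A B + hE Γ k A) ≤ Real.log ((A + B).card : ℝ) := by
  have hA0 : (0:ℝ) < A.card := by exact_mod_cast hA.card_pos
  have hB0 : (0:ℝ) < B.card := by exact_mod_cast hB.card_pos
  have h1 : ∀ k, (cst Γ k A B + hE Γ k A) * (A.card * B.card) =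
      ∑ z ∈ A ×ˢ B, -Real.log (mix (pp Γ k A z.1) (pp Γ k B z.2)) := by
    intro k
    rw [Finset.sum_product, mix_sum_eq hΓ k]
    unfold cst hE
    simp only [Finset.sum_sub_distrib, Finset.sum_const, nsmul_eq_mul]
    rw [← Finset.mul_sum]
    field_simp
    ring
  have h2 : ∑ k ∈ Finset.range N, (cst Γ k A B + hE Γ k A) * (A.card * B.card) ≤
      (A.card * B.card) * Real.log ((A + B).card : ℝ) := by
    calc ∑ k ∈ Finset.range N, (cst Γ k A B + hE Γ k A) * (A.card * B.card)
        = ∑ k ∈ Finset.range N, ∑ z ∈ A ×ˢ B, -Real.log (mix (pp Γ k A z.1) (pp Γ k B z.2)) :=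
          Finset.sum_congr rfl (fun k _ => h1 k)
      _ ≤ ∑ k ∈ Finset.range N, ∑ z ∈ A ×ˢ B,
            -Real.log (pr (A ×ˢ B) (rels (Γ k)) (rels (Γ (k + 1))) z) := by
          apply Finset.sum_le_sum
          intro k _
          rw [Finset.sum_neg_distrib, Finset.sum_neg_distrib]
          exact neg_le_neg (step hΓ k)
      _ = ∑ z ∈ A ×ˢ B, (Real.log ((A ×ˢ B).card : ℝ) - Real.log (num (A ×ˢ B) (rels (Γ N)) z)) := by
          rw [Finset.sum_comm]
          apply Finset.sum_congr rfl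
          intro z hz
          rw [Finset.sum_neg_distrib, tele (R := fun k => rels (Γ k)) (fun k => rels_equiv _) hz N]
          rw [num_top (R := rels (Γ 0)) (fun x y => by unfold rels rel; rw [hΓ.top]; trivial)]
          ring
      _ ≤ ((A ×ˢ B).card : ℝ) * Real.log ((A + B).card : ℝ) := sum_upper _ hA hB
      _ = (A.card * B.card) * Real.log ((A + B).card : ℝ) := by
          rw [Finset.card_product]; push_cast; ring
  rw [← Finset.sum_mul, mul_comm] at h2
  exact le_of_mul_le_mul_left h2 (by positivity)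

theorem hE_total (hΓ : Chain Γ) (hA : A.Nonempty) {N : ℕ}
    (hN : ∀ x ∈ A, ∀ y ∈ A, y - x ∈ Γ N → x = y) :
    ∑ k ∈ Finset.range N, hE Γ k A = Real.log (A.card : ℝ) := by
  have hA0 : (0:ℝ) < A.card := by exact_mod_cast hA.card_pos
  have h1 : ∀ k, hE Γ k A * A.card = ∑ x ∈ A, -Real.log (pp Γ k A x) := by
    intro k
    rw [log_sum_eq hΓ k]; unfold hE; field_simp
  have h2 : (∑ k ∈ Finset.range N, hE Γ k A) * A.card = A.card * Real.log (A.card : ℝ) := by
    rw [Finset.sum_mul, Finset.sum_congr rfl (fun k _ => h1 k), Finset.sum_comm]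
    rw [Finset.sum_congr rfl (g := fun _ => Real.log (A.card : ℝ))]
    · simp
    · intro x hx
      unfold pp
      rw [Finset.sum_neg_distrib, tele (R := fun k => rel (Γ k)) (fun k => rel_equiv _) hx N]
      rw [num_top (R := rel (Γ 0)) (fun x y => by unfold rel; rw [hΓ.top]; trivial)]
      have : num A (rel (Γ N)) x = 1 := by
        unfold num
        have : A.filter (rel (Γ N) x) = {x} := by
          ext w
          simp only [Finset.mem_filter, Finset.mem_singleton]
          constructor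
          · rintro ⟨hw, h⟩; exact (hN x hx w hw h).symm
          · rintro rfl; exact ⟨hx, (rel_equiv _).refl _⟩
        rw [this]; simp
      rw [this]; simp
  have h3 : (∑ k ∈ Finset.range N, hE Γ k A) * A.card = Real.log (A.card : ℝ) * A.card := by
    rw [h2]; ring
  exact mul_right_cancel₀ hA0.ne' h3

/-- the total cost is at most the logarithm of the doubling constant -/
theorem cst_total [DecidableEq G] (hΓ : Chain Γ) (hA : A.Nonempty) (hB : B.Nonempty) {N : ℕ}
    (hN : ∀ x ∈ A, ∀ y ∈ A, y - x ∈ Γ N → x = y) :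
    ∑ k ∈ Finset.range N, cst Γ k A B ≤
      Real.log ((A + B).card : ℝ) - Real.log (A.card : ℝ) := by
  have h1 := total hΓ hA hB N
  rw [Finset.sum_add_distrib, hE_total hΓ hA hN] at h1
  linarith

end Run7.h912.DG
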