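import Pool.Agent.Run7.h912.DG.Prog

/-! Sets which are Freiman isomorphic to sets closed under the erasing of binary digits. -/

set_option autoImplicit false

namespace Run7.h912.DG

open Finset
open scoped Classical Pointwise

variable {d : ℕ}

/-- Closed under the erasing of binary digits: with `x` the set contains every vector obtained from
`x` by keeping, in the coordinate `l`, only the binary digits at the places in `T l`. -/
def Erase (S : Finset (Fin d → ℤ)) : Prop := ∀ x ∈ S, ∀ T : Fin d → Finset ℕ, kp T x ∈ S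

theorem card_image_le_of {ι α β : Type*} [Nonempty β] [DecidableEq α] [DecidableEq β] (s : Finset ι) (u : ι → α) (v : ι → β)
    (h : ∀ p ∈ s, ∀ q ∈ s, v p = v q → u p = u q) : (s.image u).card ≤ (s.image v).card := by
  have hc : ∀ y : α, ∃ z : β, y ∈ s.image u → ∃ p ∈ s, u p = y ∧ v p = z := by
    intro y
    by_cases hy : y ∈ s.image u
    · obtain ⟨p, hp, rfl⟩ := Finset.mem_image.1 hy
      exact ⟨v p, fun _ => ⟨p, hp, rfl, rfl⟩⟩
    · exact ⟨Classical.arbitrary β, fun h => absurd h hy⟩
  choose w hw using hc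
  apply Finset.card_le_card_of_injOn w
  · intro y hy
    obtain ⟨p, hp, -, h2⟩ := hw y hy
    rw [← h2]
    exact Finset.mem_image_of_mem _ hp
  · intro y hy y' hy' hyy
    obtain ⟨p, hp, h1, h2⟩ := hw y hy
    obtain ⟨q, hq, h3, h4⟩ := hw y' hy'
    rw [← h1, ← h3]
    exact h p hp q hq (by rw [h2, h4, hyy])

/-- the places of the coordinate `l` -/
noncomputable def slc (B : Finset (Σ _ : Fin d, ℕ)) (l : Fin d) : Finset ℕ :=
  (B.filter (fun p => p.1 = l)).image (fun p => p.2)

theorem mem_slc {B : Finset (Σ _ : Fin d, ℕ)} {l : Fin d} {j : ℕ} :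
    j ∈ slc B l ↔ (⟨l, j⟩ : Σ _ : Fin d, ℕ) ∈ B := by
  unfold slc
  rw [Finset.mem_image]
  constructor
  · rintro ⟨⟨a, b⟩, hp, rfl⟩
    rw [Finset.mem_filter] at hp
    obtain ⟨h1, h2⟩ := hp
    simp only at h2
    subst h2
    exact h1
  · intro h
    exact ⟨_, Finset.mem_filter.2 ⟨h, rfl⟩, rfl⟩

theorem keep_empty (a : ℤ) : keep ∅ a = 0 := by simp [keep]

theorem keep_single (a : ℤ) (j : ℕ) : keep {j} a = bit a j * 2 ^ j := by simp [keep]

theorem keep_insert {T : Finset ℕ} {j : ℕ} (hj : j ∉ T) (a : ℤ) :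
    keep (insert j T) a = keep T a + bit a j * 2 ^ j := by
  unfold keep
  rw [Finset.sum_insert hj, add_comm]

theorem kp_empty (x : Fin d → ℤ) : kp (slc (∅ : Finset (Σ _ : Fin d, ℕ))) x = 0 := by
  funext l
  unfold kp
  have : slc (∅ : Finset (Σ _ : Fin d, ℕ)) l = ∅ := by simp [slc]
  rw [this, keep_empty]
  rfl

theorem Erase.zero {S : Finset (Fin d → ℤ)} (hE : Erase S) (hS : S.Nonempty) : (0 : Fin d → ℤ) ∈ S := by
  obtain ⟨x, hx⟩ := hS
  have := hE x hx (fun _ => ∅)
  have h2 : kp (fun _ => ∅) x = 0 := by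
    funext l
    exact keep_empty _
  rwa [h2] at this

theorem Erase.single {S : Finset (Fin d → ℤ)} (hE : Erase S) {l : Fin d} {j : ℕ}
    (h : ∃ x ∈ S, ∃ y ∈ S, bit (x l) j ≠ bit (y l) j) : (Pi.single l ((2:ℤ) ^ j) : Fin d → ℤ) ∈ S := by
  have key : ∀ x ∈ S, bit (x l) j = 1 → (Pi.single l ((2:ℤ) ^ j) : Fin d → ℤ) ∈ S := by
    intro x hx hb
    have h1 := hE x hx (fun l' => if l' = l then {j} else ∅)
    have h2 : kp (fun l' => if l' = l then {j} else ∅) x = Pi.single l ((2:ℤ) ^ j) := by
      funext l'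
      unfold kp
      simp only
      by_cases h3 : l' = l
      · subst h3
        rw [if_pos rfl, Pi.single_eq_same, keep_single, hb, one_mul]
      · rw [if_neg h3, Pi.single_eq_of_ne h3, keep_empty]
    rwa [h2] at h1
  obtain ⟨x, hx, y, hy, hxy⟩ := h
  rcases bit_mem (x l) j with h1 | h1
  · rcases bit_mem (y l) j with h2 | h2
    · exact absurd (h1.trans h2.symm) hxy
    · exact key y hy h2
  · exact key x hx h1

/-- additivity along the digits -/
theorem along {Γ : Type*} [AddCommGroup Γ] {S : Finset (Fin d → ℤ)} (hE : Erase S) (hS : S.Nonempty)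
    {f : (Fin d → ℤ) → Γ}
    (hf : ∀ a ∈ S, ∀ b ∈ S, ∀ c ∈ S, ∀ e ∈ S, a + b = c + e → f a + f b = f c + f e)
    {x : Fin d → ℤ} (hx : x ∈ S) (B : Finset (Σ _ : Fin d, ℕ))
    (hB : ∀ p ∈ B, (Pi.single p.1 ((2:ℤ) ^ p.2) : Fin d → ℤ) ∈ S) :
    f (kp (slc B) x) = f 0 +
      ∑ p ∈ B, bit (x p.1) p.2 • (f (Pi.single p.1 ((2:ℤ) ^ p.2)) - f 0) := by
  have h0 := hE.zero hS
  induction B using Finset.induction_on with
  | empty =>
    rw [Finset.sum_empty, add_zero, kp_empty]
  | insert p B hp ih =>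
    have ih' := ih (fun q hq => hB q (Finset.mem_insert_of_mem hq))
    rw [Finset.sum_insert hp]
    set T : Fin d → Finset ℕ := slc B with hT
    set T' : Fin d → Finset ℕ := slc (insert p B) with hT'
    have h1 : kp T' x = kp T x + bit (x p.1) p.2 • (Pi.single p.1 ((2:ℤ) ^ p.2) : Fin d → ℤ) := by
      funext l
      rw [Pi.add_apply, Pi.smul_apply]
      unfold kp
      by_cases h3 : l = p.1
      · subst h3
        have h4 : T' p.1 = insert p.2 (T p.1) := by
          ext j
          rw [hT', hT]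
          rw [Finset.mem_insert, mem_slc, mem_slc, Finset.mem_insert]
          constructor
          · rintro (h | h)
            · left; rw [← h]
            · right; exact h
          · rintro (h | h)
            · left; rw [h]
            · right; exact h
        have h5 : p.2 ∉ T p.1 := by
          rw [hT]
          rw [mem_slc]
          exact hp
        rw [h4, keep_insert h5, Pi.single_eq_same, smul_eq_mul]
      · have h4 : T' l = T l := by
          ext j
          rw [hT', hT]
          rw [mem_slc, mem_slc, Finset.mem_insert]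
          constructor
          · rintro (h | h)
            · exact absurd (by rw [← h]) h3
            · exact h
          · intro h; right; exact h
        rw [h4, Pi.single_eq_of_ne h3, smul_zero, add_zero]
    rcases bit_mem (x p.1) p.2 with hb | hb
    · rw [hb, zero_smul, add_zero] at h1
      rw [h1, hb, zero_smul, zero_add]
      exact ih'
    · rw [hb, one_smul] at h1
      have h2 := hf (kp T' x) (hE x hx T') 0 h0 (kp T x) (hE x hx T) _ (hB p (Finset.mem_insert_self _ _))
        (by rw [h1, add_zero])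
      rw [hb, one_smul]
      rw [ih'] at h2
      have h3 : f (kp T' x) = (f 0 + ∑ p ∈ B, bit (x p.1) p.2 • (f (Pi.single p.1 ((2:ℤ) ^ p.2)) - f 0)) +
          f (Pi.single p.1 ((2:ℤ) ^ p.2)) - f 0 := by
        rw [← h2]; abel
      rw [h3]; abel

theorem hered {Γ : Type*} [AddCommGroup Γ] [DecidableEq Γ] (S : Finset (Fin d → ℤ)) (hS : S.Nonempty)
    (hE : Erase S) (f : (Fin d → ℤ) → Γ)
    (hinj : ∀ a ∈ S, ∀ b ∈ S, f a = f b → a = b)
    (hf : ∀ a ∈ S, ∀ b ∈ S, ∀ c ∈ S, ∀ e ∈ S, f a + f b = f c + f e ↔ a + b = c + e)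
    (K : ℝ) (hK : ((S.image f + S.image f).card : ℝ) ≤ K * (S.image f).card) :
    ∃ (r : ℕ) (n : Fin r → ℕ) (ψ : (Fin r → ℤ) →+ Γ),
      (r : ℝ) ≤ 6300 * Real.log K ∧ (∀ i, 0 < n i) ∧
      (∏ i, (n i : ℝ)) ≤ K ^ 2000 * (S.image f).card ∧
      ((S.image f).card : ℝ) ≤ K ^ 750 * (((S.image f).filter (fun a => ∃ x : Fin r → ℤ,
        (∀ i, 0 ≤ x i ∧ x i < n i) ∧ a = f 0 + ψ x)).card : ℝ) := by
  have hcard : (S.image f).card = S.card := Finset.card_image_of_injOn (fun a ha b hb h => hinj a ha b hb h)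
  have hsum : (S + S).card ≤ (S.image f + S.image f).card := by
    have e1 : S + S = (S ×ˢ S).image (fun p => p.1 + p.2) := Finset.add_def
    have e2 : S.image f + S.image f = (S ×ˢ S).image (fun p => f p.1 + f p.2) := by
      ext z
      simp only [Finset.mem_add, Finset.mem_image, Finset.mem_product]
      constructor
      · rintro ⟨_, ⟨a, ha, rfl⟩, _, ⟨b, hb, rfl⟩, rfl⟩
        exact ⟨(a, b), ⟨ha, hb⟩, rfl⟩
      · rintro ⟨p, ⟨h1, h2⟩, rfl⟩
        exact ⟨_, ⟨p.1, h1, rfl⟩, _, ⟨p.2, h2, rfl⟩, rfl⟩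
    rw [e1, e2]
    apply card_image_le_of
    rintro p hp q hq h
    rw [Finset.mem_product] at hp hq
    exact (hf _ hp.1 _ hp.2 _ hq.1 _ hq.2).1 h
  have hK' : ((S + S).card : ℝ) ≤ K * S.card := by
    rw [hcard] at hK
    exact le_trans (by exact_mod_cast hsum) hK
  obtain ⟨J, A', hA', h1, h2, h3, h4, h5⟩ := core S hS K hK'
  have hsing : ∀ l, ∀ j ∈ J l, (Pi.single l ((2:ℤ) ^ j) : Fin d → ℤ) ∈ S :=
    fun l j hj => hE.single (h4 l j hj)
  have h0 := hE.zero hS
  set u : Fin d → ℕ → Γ := fun l j => f (Pi.single l ((2:ℤ) ^ j)) - f 0 with hu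
  have hstep : ∀ l, ∀ j, j ∈ J l → j + 1 ∈ J l → u l (j + 1) = (2:ℤ) • u l j := by
    intro l j hj hj1
    have h6 := (hf _ (hsing l _ hj1) 0 h0 _ (hsing l _ hj) _ (hsing l _ hj)).2 (by
      rw [add_zero, ← Pi.single_add]
      congr 1
      rw [pow_succ]; ring)
    rw [hu]
    simp only
    rw [two_smul]
    have h7 : f (Pi.single l ((2:ℤ) ^ (j + 1))) = f (Pi.single l ((2:ℤ) ^ j)) +
        f (Pi.single l ((2:ℤ) ^ j)) - f 0 := by
      rw [← h6]; abel
    rw [h7]; abel
  have hfor : ∀ x ∈ S, f (kp J x) = f 0 + ∑ p ∈ ivl J, cf J x p • u p.1 (st (J p.1) p.2) := by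
    intro x hx
    rw [← regroup J u hstep x]
    have h6 := along hE hS (fun a ha b hb c hc e he h => (hf a ha b hb c hc e he).2 h) hx (plc J)
      (by
        intro p hp
        unfold plc at hp
        rw [Finset.mem_sigma] at hp
        exact hsing _ _ hp.2)
    have h7 : slc (plc J) = J := by
      funext l
      ext j
      rw [mem_slc]
      simp [plc]
    rw [h7] at h6
    rw [h6]
    unfold plc
    rw [Finset.sum_sigma]
  -- the progression
  let e := (ivl J).equivFin
  let gen : Fin (ivl J).card → Γ := fun i => u (e.symm i).1.1 (st (J (e.symm i).1.1) (e.symm i).1.2)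
  let ψ : (Fin (ivl J).card → ℤ) →+ Γ :=
    { toFun := fun c => ∑ i, c i • gen i
      map_zero' := by simp
      map_add' := fun a b => by simp [add_smul, Finset.sum_add_distrib] }
  have hψ : ∀ c : (Σ _ : Fin d, ℕ) → ℤ, ψ (fun i => c (e.symm i).1) =
      ∑ p ∈ ivl J, c p • u p.1 (st (J p.1) p.2) := by
    intro c
    show ∑ i, c (e.symm i).1 • gen i = _
    rw [← Finset.sum_coe_sort (ivl J)]
    exact Fintype.sum_equiv e.symm _ _ (fun i => rfl)
  refine ⟨(ivl J).card, fun i => 2 ^ (grp (J (e.symm i).1.1) (e.symm i).1.2).card, ψ, ?_, ?_, ?_, ?_⟩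
  · rw [card_ivl]; exact h3
  · intro i; positivity
  · rw [hcard]
    refine le_trans (le_of_eq ?_) h2
    rw [← sum_grp, ← Finset.prod_pow_eq_pow_sum, ← Finset.prod_coe_sort (ivl J)]
    push_cast
    exact Fintype.prod_equiv e.symm _ _ (fun i => rfl)
  · rw [hcard]
    refine h1.trans (mul_le_mul_of_nonneg_left ?_ ?_)
    · have h6 : A'.card = (A'.image (fun x => f (kp J x))).card := by
        symm
        apply Finset.card_image_of_injOn
        intro x hx y hy hxy
        have h7 : kp J x = kp J y := hinj _ (hE x (hA' hx) J) _ (hE y (hA' hy) J) hxy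
        funext l
        have h8 : ∀ m : ℕ, (2:ℤ) ^ m ∣ x l - y l := by
          intro m
          refine (h5 x hx y hy m).2 (fun l' => ?_) l
          have := congrFun h7 l'
          unfold kp at this
          rw [this, sub_self]
          exact dvd_zero _
        by_contra hne
        have h9 : x l - y l ≠ 0 := sub_ne_zero.2 hne
        have h10 := Int.le_of_dvd (abs_pos.2 h9) ((dvd_abs _ _).2 (h8 (x l - y l).natAbs))
        have h11 : (x l - y l).natAbs < 2 ^ (x l - y l).natAbs := Nat.lt_two_pow_self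
        have h12 : |x l - y l| = ((x l - y l).natAbs : ℤ) := (Int.natCast_natAbs _).symm
        rw [h12] at h10
        have h13 : (((x l - y l).natAbs : ℕ) : ℤ) < 2 ^ (x l - y l).natAbs := by exact_mod_cast h11
        omega
      rw [h6]
      exact_mod_cast Finset.card_le_card (by
        intro a ha
        obtain ⟨x, hx, rfl⟩ := Finset.mem_image.1 ha
        rw [Finset.mem_filter]
        refine ⟨Finset.mem_image_of_mem f (hE x (hA' hx) J), fun i => cf J x (e.symm i).1, ?_, ?_⟩
        · intro i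
          have := cf_mem J x (e.symm i).1
          push_cast
          exact this
        · rw [hψ (fun p => cf J x p)]
          exact hfor x (hA' hx))
    · have hA0 : (0:ℝ) < S.card := by exact_mod_cast hS.card_pos
      have hle : (S.card : ℝ) ≤ (S + S).card := by exact_mod_cast Finset.card_le_card_add_right hS
      have : 0 ≤ K := by
        by_contra h
        have := mul_neg_of_neg_of_pos (not_le.1 h) hA0
        linarith
      exact pow_nonneg this _

end Run7.h912.DG
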