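import Mathlib

/-! Inequalities for the binary entropy. -/

set_option autoImplicit false

namespace Run7.h912.DG

open Real Set

/-- probability that two independent digits have the same sum class -/
def mix (p q : ℝ) : ℝ := p * q + (1 - p) * (1 - q)

theorem mix_mem {p q : ℝ} (hp : p ∈ Icc (0:ℝ) 1) (hq : q ∈ Icc (0:ℝ) 1) : mix p q ∈ Icc (0:ℝ) 1 := by
  obtain ⟨h1, h2⟩ := hp
  obtain ⟨h3, h4⟩ := hq
  unfold mix
  constructor
  · have := mul_nonneg h1 h3
    have := mul_nonneg (sub_nonneg.2 h2) (sub_nonneg.2 h4)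
    linarith
  · have := mul_nonneg h1 (sub_nonneg.2 h4)
    have := mul_nonneg (sub_nonneg.2 h2) h3
    nlinarith

theorem mix_comm (p q : ℝ) : mix p q = mix q p := by unfold mix; ring

/-- `binEntropy x + 2 x ^ 2` is concave -/
theorem concave_aux : ConcaveOn ℝ (Icc (0:ℝ) 1) (fun x => binEntropy x + 2 * x ^ 2) := by
  have hd : ∀ x ∈ Ioo (0:ℝ) 1, HasDerivAt (fun x => binEntropy x + 2 * x ^ 2)
      ((log (1 - x) - log x) + 4 * x) x := by
    intro x hx
    have h1 : HasDerivAt binEntropy (log (1 - x) - log x) x :=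
      hasDerivAt_binEntropy hx.1.ne' hx.2.ne
    have h2 : HasDerivAt (fun x : ℝ => 2 * x ^ 2) (4 * x) x := by
      have h := (hasDerivAt_pow 2 x).const_mul (2:ℝ)
      have e : (2:ℝ) * (((2:ℕ):ℝ) * x ^ (2 - 1)) = 4 * x := by norm_num; ring
      rw [e] at h
      exact h
    exact h1.add h2
  have heq : ∀ x ∈ Ioo (0:ℝ) 1, (deriv (fun x => binEntropy x + 2 * x ^ 2)) =ᶠ[nhds x]
      fun x => (log (1 - x) - log x) + 4 * x := by
    intro x hx
    filter_upwards [Ioo_mem_nhds hx.1 hx.2] with y hy using (hd y hy).deriv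
  have h3 : ∀ x ∈ Ioo (0:ℝ) 1,
      HasDerivAt (fun x => (log (1 - x) - log x) + 4 * x) (-1 / (1 - x) - 1 / x + 4) x := by
    intro x hx
    have hx0 : x ≠ 0 := hx.1.ne'
    have hx1 : 1 - x ≠ 0 := (sub_pos.2 hx.2).ne'
    have ha : HasDerivAt (fun x : ℝ => log (1 - x)) (-1 / (1 - x)) x := by
      have := ((hasDerivAt_id x).const_sub 1).log hx1
      simpa using this
    have hb : HasDerivAt (fun x : ℝ => log x) (1 / x) x := by
      simpa using hasDerivAt_log hx0
    have hc : HasDerivAt (fun x : ℝ => 4 * x) 4 x := by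
      simpa using (hasDerivAt_id x).const_mul 4
    exact (ha.sub hb).add hc
  apply concaveOn_of_deriv2_nonpos (convex_Icc 0 1)
  · fun_prop
  · rw [interior_Icc]
    intro x hx
    exact (hd x hx).differentiableAt.differentiableWithinAt
  · rw [interior_Icc]
    intro x hx
    exact ((h3 x hx).differentiableAt.congr_of_eventuallyEq (heq x hx)).differentiableWithinAt
  · rw [interior_Icc]
    intro x hx
    have h4 : deriv^[2] (fun x => binEntropy x + 2 * x ^ 2) x = -1 / (1 - x) - 1 / x + 4 := by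
      rw [Function.iterate_succ, Function.iterate_one, Function.comp]
      rw [(heq x hx).deriv_eq, (h3 x hx).deriv]
    rw [h4]
    have hp : 0 < x := hx.1
    have hq : 0 < 1 - x := sub_pos.2 hx.2
    have : -1 / (1 - x) - 1 / x + 4 = -(1 - 2 * x) ^ 2 / (x * (1 - x)) := by
      field_simp; ring
    rw [this]
    apply div_nonpos_of_nonpos_of_nonneg
    · nlinarith [sq_nonneg (1 - 2 * x)]
    · positivity

/-- strong concavity -/
theorem gain {p q : ℝ} (hp : p ∈ Icc (0:ℝ) 1) (hq : q ∈ Icc (0:ℝ) 1) :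
    binEntropy p + (1 / 2) * ((2 * p - 1) ^ 2 * (1 - (2 * q - 1) ^ 2)) ≤ binEntropy (mix p q) := by
  have hp' : 1 - p ∈ Icc (0:ℝ) 1 := ⟨by linarith [hp.2], by linarith [hp.1]⟩
  have h := concave_aux.2 hp hp' hq.1 (sub_nonneg.2 hq.2) (by ring)
  simp only [smul_eq_mul, binEntropy_one_sub] at h
  have e : q * p + (1 - q) * (1 - p) = mix p q := by unfold mix; ring
  rw [e] at h
  have e2 : mix p q ^ 2 = q * p ^ 2 + (1 - q) * (1 - p) ^ 2 - q * (1 - q) * (2 * p - 1) ^ 2 := by
    unfold mix; ring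
  nlinarith [h, e2]

theorem mono {p q : ℝ} (hp : p ∈ Icc (0:ℝ) 1) (hq : q ∈ Icc (0:ℝ) 1) :
    binEntropy p ≤ binEntropy (mix p q) := by
  have h := gain hp hq
  have h1 : 0 ≤ (2 * p - 1) ^ 2 := sq_nonneg _
  have h2 : 0 ≤ 1 - (2 * q - 1) ^ 2 := by nlinarith [hq.1, hq.2]
  nlinarith [mul_nonneg h1 h2]

theorem mono' {p q : ℝ} (hp : p ∈ Icc (0:ℝ) 1) (hq : q ∈ Icc (0:ℝ) 1) :
    binEntropy q ≤ binEntropy (mix p q) := by
  rw [mix_comm]; exact mono hq hp

/-- lower bound for the entropy in terms of the bias -/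
theorem log_two_sub {p : ℝ} (hp : p ∈ Icc (0:ℝ) 1) :
    log 2 - (2 * p - 1) ^ 2 ≤ binEntropy p := by
  have key : ∀ x : ℝ, 0 ≤ x → x * log x ≤ x * (2 * x - 1) - x * log 2 := by
    intro x hx
    rcases hx.eq_or_lt with h | h
    · simp [← h]
    · have h1 := log_le_sub_one_of_pos (show (0:ℝ) < 2 * x by positivity)
      rw [log_mul (by norm_num) h.ne'] at h1
      nlinarith
  have h1 := key p hp.1
  have h2 := key (1 - p) (sub_nonneg.2 hp.2)
  rw [binEntropy_eq_negMulLog_add_negMulLog_one_sub, negMulLog, negMulLog]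
  nlinarith

theorem small_aux {a b : ℝ} (ha0 : 0 ≤ a) (hb0 : 0 ≤ b) (ha : a ≤ 1 / 1000) (hb : b ≤ 1 / 1000) :
    (3 / 4) * (binEntropy a + binEntropy b) ≤ binEntropy (a + b - 2 * a * b) := by
  rcases (add_nonneg ha0 hb0).eq_or_lt with h | hs
  · have h1 : a = 0 := by linarith
    have h2 : b = 0 := by linarith
    simp [h1, h2]
  set s : ℝ := a + b with hs_def
  set c : ℝ := a + b - 2 * a * b with hc
  have hcs : c ≤ s := by nlinarith [mul_nonneg ha0 hb0]
  have hcs' : (999 / 1000) * s ≤ c := by nlinarith [mul_nonneg ha0 hb0]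
  have hc0 : 0 < c := by nlinarith
  have hs1 : s ≤ 1 / 500 := by rw [hs_def]; linarith
  set L : ℝ := -log s with hL
  have hL0 : 6 ≤ L := by
    have h1 : log s ≤ log (1 / 500) := log_le_log hs hs1
    have h2 : log (1 / 500 : ℝ) ≤ -6 := by
      have h3 : (1 / 500 : ℝ) ≤ exp (-6) := by
        rw [exp_neg, one_div]
        apply inv_anti₀ (exp_pos _)
        have h4 : exp 6 = (exp 1) ^ 6 := by rw [← exp_nat_mul]; norm_num
        rw [h4]
        have h5 := exp_one_lt_d9
        have h6 : (exp 1) ^ 6 ≤ (2.7182818286 : ℝ) ^ 6 :=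
          pow_le_pow_left₀ (exp_pos _).le h5.le 6
        have h7 : (2.7182818286 : ℝ) ^ 6 ≤ 500 := by norm_num
        linarith
      calc log (1 / 500 : ℝ) ≤ log (exp (-6)) := log_le_log (by norm_num) h3
        _ = -6 := log_exp _
    linarith
  -- lower bound for the left
  have hlow : (999 / 1000) * s * L ≤ binEntropy c := by
    have h1 : -log c ≥ L := by
      rw [hL]; linarith [log_le_log hc0 hcs]
    have hc1 : c ≤ 1 := by linarith
    have h2 : 0 ≤ negMulLog (1 - c) := negMulLog_nonneg (by linarith) (by linarith)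
    rw [binEntropy_eq_negMulLog_add_negMulLog_one_sub]
    have h3 : (999 / 1000) * s * L ≤ negMulLog c := by
      unfold negMulLog
      have : (999 / 1000) * s * L ≤ c * L := mul_le_mul_of_nonneg_right hcs' (by linarith)
      nlinarith
    linarith
  -- upper bound for the right
  have hone : ∀ x : ℝ, 0 ≤ x → x ≤ 1 → negMulLog (1 - x) ≤ x := by
    intro x hx0 hx1
    rcases (sub_nonneg.2 hx1).eq_or_lt with h | h
    · rw [← h]; simp; linarith
    · have h1 := log_le_sub_one_of_pos (inv_pos.2 h)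
      rw [log_inv] at h1
      unfold negMulLog
      have h2 : (1 - x) * (1 - x)⁻¹ = 1 := mul_inv_cancel₀ h.ne'
      nlinarith
  have htwo : negMulLog a + negMulLog b ≤ s * L + s * log 2 := by
    have key : ∀ x : ℝ, 0 ≤ x → x ≤ s → negMulLog x ≤ x * L + x * log 2 + (s / 2 - x) := by
      intro x hx0 hxs
      rcases hx0.eq_or_lt with h | h
      · rw [← h]; simp; linarith
      · have h1 := log_le_sub_one_of_pos (show 0 < s / (2 * x) by positivity)
        rw [log_div hs.ne' (by positivity), log_mul (by norm_num) h.ne'] at h1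
        unfold negMulLog
        have h2 : x * (s / (2 * x) - 1) = s / 2 - x := by field_simp
        have h3 := mul_le_mul_of_nonneg_left h1 hx0
        rw [h2] at h3
        rw [hL]
        nlinarith
    have h1 := key a ha0 (by rw [hs_def]; linarith)
    have h2 := key b hb0 (by rw [hs_def]; linarith)
    have : a + b = s := rfl
    nlinarith
  have hup : binEntropy a + binEntropy b ≤ s * L + s * log 2 + s := by
    rw [binEntropy_eq_negMulLog_add_negMulLog_one_sub, binEntropy_eq_negMulLog_add_negMulLog_one_sub]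
    have h1 := hone a ha0 (by linarith)
    have h2 := hone b hb0 (by linarith)
    linarith
  have hl2 : log 2 ≤ 0.7 := by have := log_two_lt_d9; linarith
  have hsl : s * log 2 ≤ s * 0.7 := mul_le_mul_of_nonneg_left hl2 hs.le
  nlinarith [mul_le_mul_of_nonneg_left hL0 hs.le]

/-- a probability that is near `0` or `1` -/
def Ext (p : ℝ) : Prop := 1 - (2 * p - 1) ^ 2 ≤ 1 / 500

theorem Ext.cases {p : ℝ} (h : Ext p) : p ≤ 1 / 1000 ∨ 1 - p ≤ 1 / 1000 := by
  unfold Ext at h
  rcases le_total p (1 / 2) with h1 | h1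
  · left
    nlinarith
  · right
    nlinarith

/-- two digits that are nearly determined -/
theorem small {p q : ℝ} (hp : p ∈ Icc (0:ℝ) 1) (hq : q ∈ Icc (0:ℝ) 1) (h1 : Ext p) (h2 : Ext q) :
    (3 / 4) * (binEntropy p + binEntropy q) ≤ binEntropy (mix p q) := by
  rcases h1.cases with h1 | h1 <;> rcases h2.cases with h2 | h2
  · have h := small_aux hp.1 hq.1 h1 h2
    have e : mix p q = 1 - (p + q - 2 * p * q) := by unfold mix; ring
    rw [e, binEntropy_one_sub]; exact h
  · have h := small_aux hp.1 (sub_nonneg.2 hq.2) h1 h2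
    have e : mix p q = p + (1 - q) - 2 * p * (1 - q) := by unfold mix; ring
    rw [binEntropy_one_sub] at h
    rw [e]; exact h
  · have h := small_aux (sub_nonneg.2 hp.2) hq.1 h1 h2
    have e : mix p q = (1 - p) + q - 2 * (1 - p) * q := by unfold mix; ring
    rw [binEntropy_one_sub] at h
    rw [e]; exact h
  · have h := small_aux (sub_nonneg.2 hp.2) (sub_nonneg.2 hq.2) h1 h2
    have e : mix p q = 1 - ((1 - p) + (1 - q) - 2 * (1 - p) * (1 - q)) := by unfold mix; ring
    rw [binEntropy_one_sub, binEntropy_one_sub] at h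
    rw [e, binEntropy_one_sub]; exact h

end Run7.h912.DG
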