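import Pool.Agent.Run7.h912.DG.Cost

/-! Lower bounds for the cost of one digit; the free and the frozen digits. -/

set_option autoImplicit false

namespace Run7.h912.DG

open Real Finset
open scoped Classical Pointwise

variable {G : Type*} [AddCommGroup G] {Γ : ℕ → AddSubgroup G} {A B : Finset G}

theorem pp_mem (hΓ : Chain Γ) (k : ℕ) {x : G} (hx : x ∈ A) : pp Γ k A x ∈ Set.Icc (0:ℝ) 1 :=
  pr_mem (hΓ.isTwo k) hx

theorem pp_pos (hΓ : Chain Γ) (k : ℕ) {x : G} (hx : x ∈ A) : 0 < pp Γ k A x :=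
  pr_pos (hΓ.isTwo k) hx

theorem cst_ge (hΓ : Chain Γ) (hA : A.Nonempty) (hB : B.Nonempty) (k : ℕ) :
    (1 / 2) * (VV Γ k A * (1 - VV Γ k B)) ≤ cst Γ k A B := by
  have hA0 : (0:ℝ) < A.card := by exact_mod_cast hA.card_pos
  have hB0 : (0:ℝ) < B.card := by exact_mod_cast hB.card_pos
  unfold cst
  rw [le_div_iff₀ (by positivity)]
  have h1 : ∑ x ∈ A, ∑ y ∈ B, (1 / 2) * ((2 * pp Γ k A x - 1) ^ 2 * (1 - (2 * pp Γ k B y - 1) ^ 2))
      ≤ ∑ x ∈ A, ∑ y ∈ B, (binEntropy (mix (pp Γ k A x) (pp Γ k B y)) - binEntropy (pp Γ k A x)) := by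
    apply Finset.sum_le_sum
    intro x hx
    apply Finset.sum_le_sum
    intro y hy
    have := gain (pp_mem hΓ k hx) (pp_mem hΓ k hy)
    linarith
  refine le_trans (le_of_eq ?_) h1
  have h2 : ∑ x ∈ A, ∑ y ∈ B, (1 / 2) * ((2 * pp Γ k A x - 1) ^ 2 * (1 - (2 * pp Γ k B y - 1) ^ 2)) =
      (1 / 2) * ((∑ x ∈ A, (2 * pp Γ k A x - 1) ^ 2) * (∑ y ∈ B, (1 - (2 * pp Γ k B y - 1) ^ 2))) := by
    rw [Finset.sum_mul_sum, Finset.mul_sum]
    apply Finset.sum_congr rfl
    intro x _
    rw [Finset.mul_sum]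
  rw [h2, Finset.sum_sub_distrib]
  unfold VV
  simp only [Finset.sum_const, nsmul_eq_mul, mul_one]
  field_simp

theorem VV_nonneg (k : ℕ) : 0 ≤ VV Γ k A := by unfold VV; positivity

theorem VV_le_one (hΓ : Chain Γ) (k : ℕ) : VV Γ k A ≤ 1 := by
  unfold VV
  apply div_le_one_of_le₀ _ (by positivity)
  calc ∑ x ∈ A, (2 * pp Γ k A x - 1) ^ 2 ≤ ∑ x ∈ A, (1 : ℝ) := by
        apply Finset.sum_le_sum
        intro x hx
        have := pp_mem hΓ k hx
        nlinarith [this.1, this.2]
    _ = A.card := by simp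

theorem hE_ge (hΓ : Chain Γ) (hA : A.Nonempty) (k : ℕ) : Real.log 2 - VV Γ k A ≤ hE Γ k A := by
  have hA0 : (0:ℝ) < A.card := by exact_mod_cast hA.card_pos
  unfold hE VV
  rw [le_div_iff₀ hA0]
  have h1 : ∑ x ∈ A, (Real.log 2 - (2 * pp Γ k A x - 1) ^ 2) ≤ ∑ x ∈ A, binEntropy (pp Γ k A x) :=
    Finset.sum_le_sum (fun x hx => log_two_sub (pp_mem hΓ k hx))
  rw [Finset.sum_sub_distrib] at h1
  simp only [Finset.sum_const, nsmul_eq_mul] at h1
  have h2 : (∑ x ∈ A, (2 * pp Γ k A x - 1) ^ 2) / (A.card : ℝ) * (A.card : ℝ) =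
      ∑ x ∈ A, (2 * pp Γ k A x - 1) ^ 2 := by field_simp
  rw [sub_mul, h2]
  linarith

theorem hE_nonneg (hΓ : Chain Γ) (k : ℕ) : 0 ≤ hE Γ k A := by
  unfold hE
  apply div_nonneg _ (by positivity)
  apply Finset.sum_nonneg
  intro x hx
  have := pp_mem hΓ k hx
  exact binEntropy_nonneg this.1 this.2

theorem cst_nonneg (hΓ : Chain Γ) (k : ℕ) : 0 ≤ cst Γ k A B := by
  unfold cst
  apply div_nonneg _ (by positivity)
  apply Finset.sum_nonneg
  intro x hx
  apply Finset.sum_nonneg
  intro y hy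
  exact sub_nonneg.2 (mono (pp_mem hΓ k hx) (pp_mem hΓ k hy))

/-- the frozen digits -/
theorem frozen (hΓ : Chain Γ) (hA : A.Nonempty) (k : ℕ) (hV : 999 / 1000 ≤ VV Γ k A) :
    hE Γ k A ≤ 750 * cst Γ k A A := by
  have hA0 : (0:ℝ) < A.card := by exact_mod_cast hA.card_pos
  set b : G → ℝ := fun x => binEntropy (pp Γ k A x) with hb
  set u : G → ℝ := fun x => 1 - (2 * pp Γ k A x - 1) ^ 2 with hu
  set good := A.filter (fun x => Ext (pp Γ k A x)) with hgood
  set bad := A.filter (fun x => ¬ Ext (pp Γ k A x)) with hbad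
  have hb0 : ∀ x ∈ A, 0 ≤ b x := fun x hx => by
    have := pp_mem hΓ k hx
    exact binEntropy_nonneg this.1 this.2
  have hu0 : ∀ x ∈ A, 0 ≤ u x := fun x hx => by
    have := pp_mem hΓ k hx
    have h1 := this.1
    have h2 := this.2
    simp only [hu]; nlinarith
  have hsumu : ∑ x ∈ A, u x = A.card * (1 - VV Γ k A) := by
    simp only [hu, Finset.sum_sub_distrib]
    unfold VV
    simp only [Finset.sum_const, nsmul_eq_mul, mul_one]
    field_simp
  have hsplit : ∀ f : G → ℝ, ∑ x ∈ A, f x = ∑ x ∈ good, f x + ∑ x ∈ bad, f x := by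
    intro f
    rw [hgood, hbad, Finset.sum_filter_add_sum_filter_not]
  -- the number of bad elements
  have hbadu : (bad.card : ℝ) / 500 ≤ ∑ x ∈ A, u x := by
    rw [hsplit u]
    have h1 : ∑ x ∈ bad, (1 / 500 : ℝ) ≤ ∑ x ∈ bad, u x := by
      apply Finset.sum_le_sum
      intro x hx
      have := (Finset.mem_filter.1 hx).2
      unfold Ext at this
      push Not at this
      exact this.le
    have h2 : 0 ≤ ∑ x ∈ good, u x := Finset.sum_nonneg (fun x hx => hu0 x (Finset.mem_filter.1 hx).1)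
    simp only [Finset.sum_const, nsmul_eq_mul] at h1
    linarith
  have hcard : (good.card : ℝ) + bad.card = A.card := by
    rw [hgood, hbad]
    exact_mod_cast Finset.card_filter_add_card_filter_not (s := A) (fun x => Ext (pp Γ k A x))
  have hgoodc : (A.card : ℝ) / 2 ≤ good.card := by
    have : ∑ x ∈ A, u x ≤ A.card / 1000 := by rw [hsumu]; nlinarith
    linarith
  -- the sum over pairs
  set T : ℝ := ∑ x ∈ A, ∑ y ∈ A, (binEntropy (mix (pp Γ k A x) (pp Γ k A y)) - b x) with hT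
  have hTsym : T = ∑ x ∈ A, ∑ y ∈ A,
      (binEntropy (mix (pp Γ k A x) (pp Γ k A y)) - (b x + b y) / 2) := by
    rw [hT]
    have h1 : ∑ x ∈ A, ∑ y ∈ A, b x = ∑ x ∈ A, ∑ y ∈ A, (b x + b y) / 2 := by
      have h2 : ∑ x ∈ A, ∑ y ∈ A, b x = ∑ x ∈ A, ∑ y ∈ A, b y := Finset.sum_comm
      have h3 : ∑ x ∈ A, ∑ y ∈ A, (b x + b y) / 2 =
          ((∑ x ∈ A, ∑ y ∈ A, b x) + ∑ x ∈ A, ∑ y ∈ A, b y) / 2 := by
        rw [← Finset.sum_add_distrib, Finset.sum_div]
        apply Finset.sum_congr rfl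
        intro x _
        rw [← Finset.sum_add_distrib, Finset.sum_div]
      rw [h3, ← h2]; ring
    simp only [Finset.sum_sub_distrib]
    rw [h1]
  have hpair : ∀ x ∈ A, ∀ y ∈ A, 0 ≤ binEntropy (mix (pp Γ k A x) (pp Γ k A y)) - (b x + b y) / 2 := by
    intro x hx y hy
    have h1 := mono (pp_mem hΓ k hx) (pp_mem hΓ k hy)
    have h2 := mono' (pp_mem hΓ k hx) (pp_mem hΓ k hy)
    simp only [hb]
    linarith
  have hTge : ∑ x ∈ good, ∑ y ∈ good, (b x + b y) / 4 ≤ T := by
    rw [hTsym]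
    calc ∑ x ∈ good, ∑ y ∈ good, (b x + b y) / 4
        ≤ ∑ x ∈ good, ∑ y ∈ good,
            (binEntropy (mix (pp Γ k A x) (pp Γ k A y)) - (b x + b y) / 2) := by
          apply Finset.sum_le_sum
          intro x hx
          apply Finset.sum_le_sum
          intro y hy
          have h1 := small (pp_mem hΓ k (Finset.mem_filter.1 hx).1)
            (pp_mem hΓ k (Finset.mem_filter.1 hy).1) (Finset.mem_filter.1 hx).2
            (Finset.mem_filter.1 hy).2
          simp only [hb]
          linarith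
      _ ≤ ∑ x ∈ good, ∑ y ∈ A,
            (binEntropy (mix (pp Γ k A x) (pp Γ k A y)) - (b x + b y) / 2) := by
          apply Finset.sum_le_sum
          intro x hx
          apply Finset.sum_le_sum_of_subset_of_nonneg (Finset.filter_subset _ _)
          intro y hy _
          exact hpair x (Finset.mem_filter.1 hx).1 y hy
      _ ≤ _ := by
          apply Finset.sum_le_sum_of_subset_of_nonneg (Finset.filter_subset _ _)
          intro x hx _
          exact Finset.sum_nonneg (fun y hy => hpair x hx y hy)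
  have hgg : ∑ x ∈ good, ∑ y ∈ good, (b x + b y) / 4 = good.card * (∑ x ∈ good, b x) / 2 := by
    have : ∀ x ∈ good, ∑ y ∈ good, (b x + b y) / 4 =
        (good.card : ℝ) * b x / 4 + (∑ y ∈ good, b y) / 4 := by
      intro x _
      rw [← Finset.sum_div, Finset.sum_add_distrib]
      simp only [Finset.sum_const, nsmul_eq_mul]
      ring
    rw [Finset.sum_congr rfl this, Finset.sum_add_distrib]
    simp only [Finset.sum_const, nsmul_eq_mul]
    rw [← Finset.sum_div, ← Finset.mul_sum]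
    ring
  have hSg0 : 0 ≤ ∑ x ∈ good, b x := Finset.sum_nonneg (fun x hx => hb0 x (Finset.mem_filter.1 hx).1)
  have h1 : (A.card : ℝ) * (∑ x ∈ good, b x) / 4 ≤ T := by
    have : (A.card : ℝ) / 2 * (∑ x ∈ good, b x) ≤ good.card * (∑ x ∈ good, b x) :=
      mul_le_mul_of_nonneg_right hgoodc hSg0
    linarith
  have hTc : T = cst Γ k A A * (A.card * A.card) := by
    unfold cst
    rw [hT]; field_simp
    rfl
  have h2 : ∑ x ∈ good, b x ≤ 4 * (A.card * cst Γ k A A) := by
    rw [hTc] at h1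
    have : (A.card : ℝ) * (∑ x ∈ good, b x) ≤ A.card * (4 * (A.card * cst Γ k A A)) := by linarith
    exact le_of_mul_le_mul_left this hA0
  have h3 : ∑ x ∈ bad, b x ≤ 0.7 * bad.card := by
    have : ∑ x ∈ bad, b x ≤ ∑ x ∈ bad, (0.7 : ℝ) := by
      apply Finset.sum_le_sum
      intro x _
      have h5 : binEntropy (pp Γ k A x) ≤ Real.log 2 := binEntropy_le_log_two
      have h6 := Real.log_two_lt_d9
      simp only [hb]
      linarith
    simpa [mul_comm] using this
  have h4 : (1 - VV Γ k A) ≤ 2.01 * cst Γ k A A := by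
    have h5 := cst_ge hΓ hA hA k
    have h6 := VV_le_one (A := A) hΓ k
    nlinarith
  have h7 : (bad.card : ℝ) ≤ 500 * (A.card * (2.01 * cst Γ k A A)) := by
    have : ∑ x ∈ A, u x ≤ A.card * (2.01 * cst Γ k A A) := by
      rw [hsumu]; exact mul_le_mul_of_nonneg_left h4 hA0.le
    linarith
  have hc0 : 0 ≤ cst Γ k A A := cst_nonneg hΓ k
  have hc1 : 0 ≤ A.card * cst Γ k A A := mul_nonneg hA0.le hc0
  change (∑ x ∈ A, b x) / A.card ≤ _
  rw [div_le_iff₀ hA0, hsplit b]
  nlinarith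

/-- the free digits -/
noncomputable def free (Γ : ℕ → AddSubgroup G) (A : Finset G) (N : ℕ) : Finset ℕ :=
  (Finset.range N).filter (fun k => VV Γ k A ≤ 999 / 1000)

theorem sum_frozen [DecidableEq G] (hΓ : Chain Γ) (hA : A.Nonempty) {N : ℕ}
    (hN : ∀ x ∈ A, ∀ y ∈ A, y - x ∈ Γ N → x = y) :
    ∑ k ∈ (Finset.range N).filter (fun k => k ∉ free Γ A N), hE Γ k A ≤
      750 * (Real.log ((A + A).card : ℝ) - Real.log (A.card : ℝ)) := by
  refine le_trans ?_ (mul_le_mul_of_nonneg_left (cst_total hΓ hA hA hN) (by norm_num))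
  rw [Finset.mul_sum]
  calc ∑ k ∈ (Finset.range N).filter (fun k => k ∉ free Γ A N), hE Γ k A
      ≤ ∑ k ∈ (Finset.range N).filter (fun k => k ∉ free Γ A N), 750 * cst Γ k A A := by
        apply Finset.sum_le_sum
        intro k hk
        rw [Finset.mem_filter] at hk
        apply frozen hΓ hA k
        unfold free at hk
        by_contra h
        exact hk.2 (Finset.mem_filter.2 ⟨hk.1, (not_le.1 h).le⟩)
    _ ≤ ∑ k ∈ Finset.range N, 750 * cst Γ k A A :=
        Finset.sum_le_sum_of_subset_of_nonneg (Finset.filter_subset _ _)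
          (fun k _ _ => mul_nonneg (by norm_num) (cst_nonneg hΓ k))

theorem card_free [DecidableEq G] (hΓ : Chain Γ) (hA : A.Nonempty) {N : ℕ}
    (hN : ∀ x ∈ A, ∀ y ∈ A, y - x ∈ Γ N → x = y) :
    (free Γ A N).card * Real.log 2 ≤ Real.log (A.card : ℝ) +
      2000 * (Real.log ((A + A).card : ℝ) - Real.log (A.card : ℝ)) := by
  have h1 : ∀ k ∈ free Γ A N, Real.log 2 ≤ hE Γ k A + 2000 * cst Γ k A A := by
    intro k hk
    have h2 := (Finset.mem_filter.1 hk).2
    have h3 := hE_ge hΓ hA k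
    have h4 := cst_ge hΓ hA hA k
    have h5 := VV_nonneg (Γ := Γ) (A := A) k
    nlinarith
  have h2 := Finset.sum_le_sum h1
  rw [Finset.sum_add_distrib, Finset.sum_const, nsmul_eq_mul] at h2
  have h3 : ∑ k ∈ free Γ A N, hE Γ k A ≤ ∑ k ∈ Finset.range N, hE Γ k A :=
    Finset.sum_le_sum_of_subset_of_nonneg (Finset.filter_subset _ _) (fun k _ _ => hE_nonneg hΓ k)
  have h4 : ∑ k ∈ free Γ A N, 2000 * cst Γ k A A ≤ ∑ k ∈ Finset.range N, 2000 * cst Γ k A A :=
    Finset.sum_le_sum_of_subset_of_nonneg (Finset.filter_subset _ _)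
      (fun k _ _ => mul_nonneg (by norm_num) (cst_nonneg hΓ k))
  rw [hE_total hΓ hA hN] at h3
  rw [← Finset.mul_sum (Finset.range N)] at h4
  have h5 := mul_le_mul_of_nonneg_left (cst_total hΓ hA hA hN) (show (0:ℝ) ≤ 2000 by norm_num)
  linarith

/-- separation: all later digits are frozen -/
theorem VV_sep (hΓ : Chain Γ) (hA : A.Nonempty) {N k : ℕ} (hk : N ≤ k)
    (hN : ∀ x ∈ A, ∀ y ∈ A, y - x ∈ Γ N → x = y) : VV Γ k A = 1 := by
  have hA0 : (0:ℝ) < A.card := by exact_mod_cast hA.card_pos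
  have hle : ∀ m, Γ (N + m) ≤ Γ N := by
    intro m
    induction m with
    | zero => exact le_rfl
    | succ m ih => exact (hΓ.anti _).trans ih
  have hle2 : ∀ m, N ≤ m → Γ m ≤ Γ N := by
    intro m hm
    obtain ⟨c, rfl⟩ := Nat.exists_eq_add_of_le hm
    exact hle c
  have hone : ∀ m, N ≤ m → ∀ x ∈ A, num A (rel (Γ m)) x = 1 := by
    intro m hm x hx
    unfold num
    have : A.filter (rel (Γ m) x) = {x} := by
      ext w
      simp only [Finset.mem_filter, Finset.mem_singleton]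
      constructor
      · rintro ⟨hw, h⟩; exact (hN x hx w hw (hle2 m hm h)).symm
      · rintro rfl; exact ⟨hx, (rel_equiv _).refl _⟩
    rw [this]; simp
  unfold VV
  have h1 : ∀ x ∈ A, (2 * pp Γ k A x - 1) ^ 2 = 1 := by
    intro x hx
    unfold pp pr
    rw [hone k hk x hx, hone (k + 1) (by omega) x hx]
    norm_num
  rw [Finset.sum_congr rfl h1]
  simp only [Finset.sum_const, nsmul_eq_mul, mul_one]
  field_simp

/-- the number of exits -/
theorem exits [DecidableEq G] (hΓ : Chain Γ) (hA : A.Nonempty) {N d : ℕ}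
    (hN : ∀ x ∈ A, ∀ y ∈ A, y - x ∈ Γ N → x = y)
    (hdbl : ∀ k (x : G), x + x ∈ Γ (k + d) ↔ x ∈ Γ k) (hinj : ∀ x : G, x + x = 0 → x = 0) :
    (((free Γ A N).filter (fun k => k + d ∉ free Γ A N)).card : ℝ) ≤
      2100 * (Real.log ((A + A.image (fun x => x + x)).card : ℝ) - Real.log (A.card : ℝ)) := by
  set B := A.image (fun x => x + x) with hB
  have hBne : B.Nonempty := hA.image _
  have hVB : ∀ k, VV Γ (k + d) B = VV Γ k A := by
    intro k
    have hij : Set.InjOn (fun x : G => x + x) (A : Set G) := by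
      intro x _ y _ h
      have h1 : (x - y) + (x - y) = 0 := by
        have h2 : x + x = y + y := h
        have : (x - y) + (x - y) = (x + x) - (y + y) := by abel
        rw [this, h2, sub_self]
      exact sub_eq_zero.1 (hinj _ h1)
    have hnum : ∀ m x, num B (rel (Γ (m + d))) (x + x) = num A (rel (Γ m)) x := by
      intro m x
      unfold num
      have h1 : B.filter (rel (Γ (m + d)) (x + x)) = (A.filter (rel (Γ m) x)).image (fun x => x + x) := by
        ext w
        simp only [hB, Finset.mem_filter, Finset.mem_image]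
        constructor
        · rintro ⟨⟨v, hv, rfl⟩, h⟩
          refine ⟨v, ⟨hv, ?_⟩, rfl⟩
          unfold rel at *
          rw [← hdbl]
          have : v - x + (v - x) = v + v - (x + x) := by abel
          rw [this]; exact h
        · rintro ⟨v, ⟨hv, h⟩, rfl⟩
          refine ⟨⟨v, hv, rfl⟩, ?_⟩
          unfold rel at *
          have : v + v - (x + x) = v - x + (v - x) := by abel
          rw [this, hdbl]; exact h
      rw [h1, Finset.card_image_of_injOn (hij.mono (fun w hw => (Finset.mem_filter.1 hw).1))]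
    have hpp : ∀ x, pp Γ (k + d) B (x + x) = pp Γ k A x := by
      intro x
      unfold pp pr
      rw [hnum k x]
      have : k + d + 1 = (k + 1) + d := by ring
      rw [this, hnum (k + 1) x]
    unfold VV
    rw [hB, Finset.sum_image hij, Finset.card_image_of_injOn hij]
    simp only [← hB, hpp]
  have h1 : ∀ k ∈ (free Γ A N).filter (fun k => k + d ∉ free Γ A N),
      (1 / 2100 : ℝ) ≤ cst Γ (k + d) A B := by
    intro k hk
    rw [Finset.mem_filter] at hk
    have h2 := (Finset.mem_filter.1 hk.1).2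
    have h3 : 999 / 1000 ≤ VV Γ (k + d) A := by
      by_cases hkN : k + d < N
      · by_contra h
        exact hk.2 (Finset.mem_filter.2 ⟨Finset.mem_range.2 hkN, (not_le.1 h).le⟩)
      · rw [VV_sep hΓ hA (not_lt.1 hkN) hN]; norm_num
    have h4 := cst_ge hΓ hA hBne (k + d)
    rw [hVB] at h4
    nlinarith
  have h2 := Finset.sum_le_sum h1
  rw [Finset.sum_const, nsmul_eq_mul] at h2
  have h3 : ∑ k ∈ (free Γ A N).filter (fun k => k + d ∉ free Γ A N), cst Γ (k + d) A B ≤
      ∑ k ∈ Finset.range (N + d), cst Γ k A B := by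
    rw [← Finset.sum_image (s := (free Γ A N).filter (fun k => k + d ∉ free Γ A N))
      (g := fun k => k + d) (f := fun k => cst Γ k A B)
      (fun x _ y _ h => by simpa using h)]
    apply Finset.sum_le_sum_of_subset_of_nonneg
    · intro m hm
      obtain ⟨k, hk, rfl⟩ := Finset.mem_image.1 hm
      have := Finset.mem_range.1 (Finset.mem_filter.1 (Finset.mem_filter.1 hk).1).1
      exact Finset.mem_range.2 (by omega)
    · intro k _ _
      exact cst_nonneg hΓ k
  have hle : ∀ m, Γ (N + m) ≤ Γ N := by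
    intro m
    induction m with
    | zero => exact le_rfl
    | succ m ih => exact (hΓ.anti _).trans ih
  have h4 := cst_total (B := B) (N := N + d) hΓ hA hBne
    (fun x hx y hy h => hN x hx y hy (hle d h))
  linarith

end Run7.h912.DG
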