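import Pool.Agent.Run7.h912.DG.Ineq

/-! Averages over the classes of an equivalence relation and the inequality
`H(S | coarse) ≥ H(S | fine)` for uniform laws. -/

set_option autoImplicit false

namespace Run7.h912.DG

open Real Finset
open scoped Classical

variable {α : Type*}

/-- size of the class of `z` in `Ω` -/
noncomputable def num (Ω : Finset α) (R : α → α → Prop) (z : α) : ℝ := ((Ω.filter (R z)).card : ℝ)

/-- proportion of the fine class in the coarse class -/
noncomputable def pr (Ω : Finset α) (R S : α → α → Prop) (z : α) : ℝ := num Ω S z / num Ω R z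

/-- each class of `R` is the union of at most two classes of `S` -/
structure Two (R S : α → α → Prop) : Prop where
  eqR : Equivalence R
  eqS : Equivalence S
  sub : ∀ x y, S x y → R x y
  two : ∀ x y z, R x y → R x z → ¬ S x y → ¬ S x z → S y z

variable {Ω : Finset α} {R S : α → α → Prop}

theorem num_pos (hR : Equivalence R) {z : α} (hz : z ∈ Ω) : 0 < num Ω R z := by
  unfold num
  exact_mod_cast Finset.card_pos.2 ⟨z, by simp [hz, hR.refl]⟩

theorem num_nonneg (z : α) : 0 ≤ num Ω R z := by unfold num; positivity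

theorem num_congr (hR : Equivalence R) {z z' : α} (h : R z z') : num Ω R z' = num Ω R z := by
  unfold num
  congr 2
  ext w
  simp only [Finset.mem_filter, and_congr_right_iff]
  intro _
  exact ⟨fun h' => hR.trans h h', fun h' => hR.trans (hR.symm h) h'⟩

theorem num_mono {S' : α → α → Prop} (h : ∀ x y, S x y → S' x y) (z : α) :
    num Ω S z ≤ num Ω S' z := by
  unfold num
  exact_mod_cast Finset.card_le_card (Finset.monotone_filter_right _ (fun w _ hw => h _ _ hw))

theorem blockavg (hR : Equivalence R) (F : α → ℝ) :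
    ∑ z ∈ Ω, F z = ∑ z ∈ Ω, (∑ z' ∈ Ω.filter (R z), F z') / num Ω R z := by
  have h1 : ∀ z ∈ Ω, (∑ z' ∈ Ω.filter (R z), F z') / num Ω R z =
      ∑ z' ∈ Ω, if R z' z then F z' / num Ω R z' else 0 := by
    intro z hz
    rw [Finset.sum_filter, Finset.sum_div]
    apply Finset.sum_congr rfl
    intro z' hz'
    by_cases h : R z z'
    · rw [if_pos h, if_pos (hR.symm h), num_congr hR h]
    · rw [if_neg h, if_neg (fun h' => h (hR.symm h')), zero_div]
  rw [Finset.sum_congr rfl h1, Finset.sum_comm]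
  apply Finset.sum_congr rfl
  intro z hz
  rw [← Finset.sum_filter, Finset.sum_const, nsmul_eq_mul]
  have := num_pos hR hz
  change F z = num Ω R z * (F z / num Ω R z)
  field_simp

theorem num_compl (h2 : Two R S) {z z' : α} (h : R z z') (h' : ¬ S z z') :
    num Ω S z' = num Ω R z - num Ω S z := by
  have h1 : Ω.filter (R z) = Ω.filter (S z) ∪ Ω.filter (S z') := by
    ext w
    simp only [Finset.mem_filter, Finset.mem_union]
    constructor
    · rintro ⟨hw, hr⟩
      by_cases hs : S z w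
      · exact Or.inl ⟨hw, hs⟩
      · exact Or.inr ⟨hw, h2.two z z' w h hr h' hs⟩
    · rintro (⟨hw, hs⟩ | ⟨hw, hs⟩)
      · exact ⟨hw, h2.sub _ _ hs⟩
      · exact ⟨hw, h2.eqR.trans h (h2.sub _ _ hs)⟩
  have hd : Disjoint (Ω.filter (S z)) (Ω.filter (S z')) := by
    rw [Finset.disjoint_filter]
    intro w _ hs hs'
    exact h' (h2.eqS.trans hs (h2.eqS.symm hs'))
  unfold num
  rw [h1, Finset.card_union_of_disjoint hd]
  push_cast; ring

theorem pr_mem (h2 : Two R S) {z : α} (hz : z ∈ Ω) : pr Ω R S z ∈ Set.Icc (0:ℝ) 1 := by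
  have hp := num_pos h2.eqR hz
  refine ⟨div_nonneg (num_nonneg z) hp.le, ?_⟩
  unfold pr
  rw [div_le_one hp]
  exact num_mono h2.sub z

theorem pr_pos (h2 : Two R S) {z : α} (hz : z ∈ Ω) : 0 < pr Ω R S z :=
  div_pos (num_pos h2.eqS hz) (num_pos h2.eqR hz)

theorem pr_same (h2 : Two R S) {z z' : α} (h : S z z') : pr Ω R S z' = pr Ω R S z := by
  unfold pr
  rw [num_congr h2.eqS h, num_congr h2.eqR (h2.sub _ _ h)]

theorem pr_other (h2 : Two R S) {z z' : α} (hz : z ∈ Ω) (h : R z z') (h' : ¬ S z z') :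
    pr Ω R S z' = 1 - pr Ω R S z := by
  unfold pr
  rw [num_congr h2.eqR h, num_compl h2 h h']
  have := num_pos h2.eqR hz
  field_simp

/-- sum over a coarse class of a function that depends on the fine class -/
theorem sum_block (h2 : Two R S) {z : α} (hz : z ∈ Ω) (F : α → ℝ) (a b : ℝ)
    (ha : ∀ z' ∈ Ω, S z z' → F z' = a) (hb : ∀ z' ∈ Ω, R z z' → ¬ S z z' → F z' = b) :
    (∑ z' ∈ Ω.filter (R z), F z') / num Ω R z = pr Ω R S z * a + (1 - pr Ω R S z) * b := by
  have h1 : Ω.filter (R z) = Ω.filter (S z) ∪ Ω.filter (fun w => R z w ∧ ¬ S z w) := by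
    ext w
    simp only [Finset.mem_filter, Finset.mem_union]
    constructor
    · rintro ⟨hw, hr⟩
      by_cases hs : S z w
      · exact Or.inl ⟨hw, hs⟩
      · exact Or.inr ⟨hw, hr, hs⟩
    · rintro (⟨hw, hs⟩ | ⟨hw, hr, hs⟩)
      · exact ⟨hw, h2.sub _ _ hs⟩
      · exact ⟨hw, hr⟩
  have hd : Disjoint (Ω.filter (S z)) (Ω.filter (fun w => R z w ∧ ¬ S z w)) := by
    rw [Finset.disjoint_filter]
    rintro w _ hs ⟨_, hs'⟩
    exact hs' hs
  have hc : ((Ω.filter (fun w => R z w ∧ ¬ S z w)).card : ℝ) = num Ω R z - num Ω S z := by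
    unfold num
    rw [h1, Finset.card_union_of_disjoint hd]
    push_cast; ring
  rw [h1, Finset.sum_union hd]
  rw [Finset.sum_congr rfl (g := fun _ => a) (fun w hw => ha w (Finset.mem_filter.1 hw).1
    (Finset.mem_filter.1 hw).2)]
  rw [Finset.sum_congr rfl (g := fun _ => b) (fun w hw => hb w (Finset.mem_filter.1 hw).1
    (Finset.mem_filter.1 hw).2.1 (Finset.mem_filter.1 hw).2.2)]
  rw [Finset.sum_const, Finset.sum_const, nsmul_eq_mul, nsmul_eq_mul, hc]
  change (num Ω S z * a + (num Ω R z - num Ω S z) * b) / num Ω R z = _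
  have := num_pos h2.eqR hz
  unfold pr
  field_simp

theorem star (h2 : Two R S) (φ : ℝ → ℝ) :
    ∑ z ∈ Ω, φ (pr Ω R S z) =
      ∑ z ∈ Ω, (pr Ω R S z * φ (pr Ω R S z) + (1 - pr Ω R S z) * φ (1 - pr Ω R S z)) := by
  rw [blockavg h2.eqR (fun z => φ (pr Ω R S z))]
  apply Finset.sum_congr rfl
  intro z hz
  apply sum_block h2 hz
  · intro z' _ h; rw [pr_same h2 h]
  · intro z' _ h h'; rw [pr_other h2 hz h h']

/-- Conditioning on a finer partition decreases the entropy: `Rb` is finer than `Rs`; the classes of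
`Rs` are cut into two by `Ss`. -/
theorem gibbs {Rb Rs Ss : α → α → Prop} (hb : Equivalence Rb) (h2 : Two Rs Ss)
    (hbs : ∀ x y, Rb x y → Rs x y) :
    ∑ z ∈ Ω, Real.log (pr Ω Rs Ss z) ≤
      ∑ z ∈ Ω, Real.log (pr Ω Rb (fun x y => Rb x y ∧ Ss x y) z) := by
  set Sb : α → α → Prop := fun x y => Rb x y ∧ Ss x y with hSb
  have h2b : Two Rb Sb :=
    { eqR := hb
      eqS := ⟨fun x => ⟨hb.refl x, h2.eqS.refl x⟩, fun h => ⟨hb.symm h.1, h2.eqS.symm h.2⟩,
        fun h h' => ⟨hb.trans h.1 h'.1, h2.eqS.trans h.2 h'.2⟩⟩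
      sub := fun x y h => h.1
      two := fun x y z hxy hxz h h' => ⟨hb.trans (hb.symm hxy) hxz,
        h2.two x y z (hbs _ _ hxy) (hbs _ _ hxz) (fun h'' => h ⟨hxy, h''⟩)
          (fun h'' => h' ⟨hxz, h''⟩)⟩ }
  have hw0 : ∀ z ∈ Ω, 0 < pr Ω Rb Sb z := fun z hz => pr_pos h2b hz
  have hP0 : ∀ z ∈ Ω, 0 < pr Ω Rs Ss z := fun z hz => pr_pos h2 hz
  have key : ∑ z ∈ Ω, pr Ω Rs Ss z / pr Ω Rb Sb z ≤ ∑ z ∈ Ω, (1 : ℝ) := by
    rw [blockavg hb]
    apply Finset.sum_le_sum
    intro z hz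
    have hPm := pr_mem h2 hz
    have hwm := pr_mem h2b hz
    rw [sum_block h2b hz _ (pr Ω Rs Ss z / pr Ω Rb Sb z) ((1 - pr Ω Rs Ss z) / (1 - pr Ω Rb Sb z))]
    · have h1 : pr Ω Rb Sb z * (pr Ω Rs Ss z / pr Ω Rb Sb z) = pr Ω Rs Ss z := by
        have := (hw0 z hz).ne'
        field_simp
      have h3 : (1 - pr Ω Rb Sb z) * ((1 - pr Ω Rs Ss z) / (1 - pr Ω Rb Sb z)) ≤
          1 - pr Ω Rs Ss z := by
        rcases (sub_nonneg.2 hwm.2).eq_or_lt with h | h
        · rw [← h, zero_mul]; exact sub_nonneg.2 hPm.2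
        · rw [mul_div_cancel₀ _ h.ne']
      linarith
    · intro z' _ h
      rw [pr_same h2 h.2, pr_same h2b h]
    · intro z' _ h h'
      rw [pr_other h2 hz (hbs _ _ h) (fun h'' => h' ⟨h, h''⟩), pr_other h2b hz h h']
  have h3 : ∀ z ∈ Ω, Real.log (pr Ω Rs Ss z) - Real.log (pr Ω Rb Sb z) ≤
      pr Ω Rs Ss z / pr Ω Rb Sb z - 1 := by
    intro z hz
    rw [← Real.log_div (hP0 z hz).ne' (hw0 z hz).ne']
    exact Real.log_le_sub_one_of_pos (div_pos (hP0 z hz) (hw0 z hz))
  have h4 := Finset.sum_le_sum h3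
  rw [Finset.sum_sub_distrib, Finset.sum_sub_distrib] at h4
  linarith

end Run7.h912.DG
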