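import Pool.Agent.Run7.h912.DG.Core

/-! The digits at the places of `J` form a progression whose rank is the number of maximal intervals. -/

set_option autoImplicit false

namespace Run7.h912.DG

open Finset
open scoped Classical

/-- right end points of the maximal intervals -/
def exi (J : Finset ℕ) : Finset ℕ := J.filter (fun j => j + 1 ∉ J)

theorem exists_exit {J : Finset ℕ} {j : ℕ} (hj : j ∈ J) : ∃ e, j ≤ e ∧ e ∈ exi J := by
  have hne : J.Nonempty := ⟨j, hj⟩
  refine ⟨J.max' hne, J.le_max' _ hj, ?_⟩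
  unfold exi
  rw [Finset.mem_filter]
  refine ⟨J.max'_mem hne, fun h => ?_⟩
  have := J.le_max' _ h
  omega

/-- the right end point of the interval of `j` -/
noncomputable def nxt (J : Finset ℕ) (j : ℕ) : ℕ :=
  if h : ∃ e, j ≤ e ∧ e ∈ exi J then Nat.find h else 0

theorem nxt_spec {J : Finset ℕ} {j : ℕ} (hj : j ∈ J) : j ≤ nxt J j ∧ nxt J j ∈ exi J := by
  unfold nxt
  rw [dif_pos (exists_exit hj)]
  exact Nat.find_spec (exists_exit hj)

theorem nxt_min {J : Finset ℕ} {j e : ℕ} (he : e ∈ exi J) (h : j ≤ e) : nxt J j ≤ e := by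
  unfold nxt
  rw [dif_pos ⟨e, h, he⟩]
  exact Nat.find_min' _ ⟨h, he⟩

theorem between {J : Finset ℕ} {j : ℕ} (hj : j ∈ J) (t : ℕ) (ht : j + t ≤ nxt J j) :
    j + t ∈ J ∧ nxt J (j + t) = nxt J j := by
  induction t with
  | zero => exact ⟨hj, rfl⟩
  | succ t ih =>
    obtain ⟨h1, h2⟩ := ih (by omega)
    have h3 : j + t + 1 ∈ J := by
      by_contra h
      have h4 : j + t ∈ exi J := Finset.mem_filter.2 ⟨h1, h⟩
      have h5 := nxt_min h4 (le_refl _)
      omega
    refine ⟨h3, le_antisymm (nxt_min (nxt_spec hj).2 ht) ?_⟩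
    have h6 := nxt_spec h3
    rw [← h2]
    exact nxt_min h6.2 (le_trans (Nat.le_succ _) h6.1)

/-- the interval that ends at `e` -/
noncomputable def grp (J : Finset ℕ) (e : ℕ) : Finset ℕ := J.filter (fun j => nxt J j = e)

/-- its left end point -/
noncomputable def st (J : Finset ℕ) (e : ℕ) : ℕ := e + 1 - (grp J e).card

theorem grp_eq {J : Finset ℕ} {e : ℕ} :
    grp J e = Finset.Icc (st J e) e ∧ (grp J e).card + st J e = e + 1 := by
  have h1 : ∀ j ∈ grp J e, Finset.Icc j e ⊆ grp J e := by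
    intro j hj i hi
    rw [grp, Finset.mem_filter] at hj
    rw [Finset.mem_Icc] at hi
    obtain ⟨t, rfl⟩ := Nat.exists_eq_add_of_le hi.1
    have h2 := between hj.1 t (by rw [hj.2]; exact hi.2)
    rw [grp, Finset.mem_filter]
    exact ⟨h2.1, by rw [h2.2, hj.2]⟩
  have h2 : ∀ j ∈ grp J e, j ≤ e := by
    intro j hj
    rw [grp, Finset.mem_filter] at hj
    rw [← hj.2]; exact (nxt_spec hj.1).1
  have h3 : (grp J e).card ≤ e + 1 := by
    have : grp J e ⊆ Finset.range (e + 1) := fun j hj => Finset.mem_range.2 (by have := h2 j hj; omega)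
    simpa using Finset.card_le_card this
  have h4 : grp J e ⊆ Finset.Icc (st J e) e := by
    intro j hj
    have h5 := Finset.card_le_card (h1 j hj)
    rw [Nat.card_Icc] at h5
    rw [Finset.mem_Icc]
    refine ⟨?_, h2 j hj⟩
    unfold st; omega
  have h5 : (grp J e).card + st J e = e + 1 := by unfold st; omega
  refine ⟨Finset.eq_of_subset_of_card_le h4 ?_, h5⟩
  rw [Nat.card_Icc]; omega

theorem sum_two_pow_lt (n : ℕ) (T : Finset ℕ) (s : ℕ) (hT : T ⊆ Finset.Ico s (s + n)) :
    ∑ j ∈ T, 2 ^ (j - s) < 2 ^ n := by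
  have h1 : ∑ j ∈ T, 2 ^ (j - s) ≤ ∑ i ∈ Finset.range n, 2 ^ i := by
    rw [← Finset.sum_image (s := T) (g := fun j => j - s) (f := fun i => 2 ^ i)]
    · apply Finset.sum_le_sum_of_subset
      intro i hi
      obtain ⟨j, hj, rfl⟩ := Finset.mem_image.1 hi
      have := Finset.mem_Ico.1 (hT hj)
      exact Finset.mem_range.2 (by omega)
    · intro a ha b hb hab
      have h1 := Finset.mem_Ico.1 (hT ha)
      have h2 := Finset.mem_Ico.1 (hT hb)
      simp only at hab
      omega
  have h2 := Nat.geomSum_eq (le_refl 2) n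
  have h3 : 0 < 2 ^ n := by positivity
  simp only [show 2 - 1 = 1 from rfl, Nat.div_one] at h2
  omega

variable {d : ℕ}

/-- all places -/
def plc (J : Fin d → Finset ℕ) : Finset (Σ _ : Fin d, ℕ) := Finset.univ.sigma (fun l => J l)

/-- all intervals -/
def ivl (J : Fin d → Finset ℕ) : Finset (Σ _ : Fin d, ℕ) := Finset.univ.sigma (fun l => exi (J l))

theorem card_ivl (J : Fin d → Finset ℕ) :
    (ivl J).card = ∑ l, ((J l).filter (fun j => j + 1 ∉ J l)).card := by
  unfold ivl
  rw [Finset.card_sigma]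
  rfl

theorem sum_grp (J : Fin d → Finset ℕ) :
    ∑ p ∈ ivl J, (grp (J p.1) p.2).card = ∑ l, (J l).card := by
  unfold ivl
  rw [Finset.sum_sigma]
  apply Finset.sum_congr rfl
  intro l _
  unfold grp
  exact (Finset.card_eq_sum_card_fiberwise (fun j hj => (nxt_spec hj).2)).symm

/-- coefficient -/
noncomputable def cf (J : Fin d → Finset ℕ) (x : Fin d → ℤ) (p : Σ _ : Fin d, ℕ) : ℤ :=
  ∑ j ∈ grp (J p.1) p.2, bit (x p.1) j * 2 ^ (j - st (J p.1) p.2)

theorem cf_mem (J : Fin d → Finset ℕ) (x : Fin d → ℤ) (p : Σ _ : Fin d, ℕ) :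
    0 ≤ cf J x p ∧ cf J x p < 2 ^ (grp (J p.1) p.2).card := by
  unfold cf
  obtain ⟨h1, h2⟩ := grp_eq (J := J p.1) (e := p.2)
  constructor
  · apply Finset.sum_nonneg
    intro j _
    rcases bit_mem (x p.1) j with h | h <;> rw [h] <;> simp
  · have h3 : ∑ j ∈ grp (J p.1) p.2, bit (x p.1) j * 2 ^ (j - st (J p.1) p.2) ≤
        ∑ j ∈ grp (J p.1) p.2, (2:ℤ) ^ (j - st (J p.1) p.2) := by
      apply Finset.sum_le_sum
      intro j _
      rcases bit_mem (x p.1) j with h | h <;> rw [h] <;> simp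
    refine lt_of_le_of_lt h3 ?_
    have h4 := sum_two_pow_lt (grp (J p.1) p.2).card (grp (J p.1) p.2) (st (J p.1) p.2) (by
      intro j hj
      rw [h1, Finset.mem_Icc] at hj
      rw [Finset.mem_Ico]; omega)
    exact_mod_cast h4

theorem regroup {Γ : Type*} [AddCommGroup Γ] (J : Fin d → Finset ℕ) (w : Fin d → ℕ → Γ)
    (hw : ∀ l, ∀ j, j ∈ J l → j + 1 ∈ J l → w l (j + 1) = (2:ℤ) • w l j) (x : Fin d → ℤ) :
    ∑ l, ∑ j ∈ J l, bit (x l) j • w l j =
      ∑ p ∈ ivl J, cf J x p • w p.1 (st (J p.1) p.2) := by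
  unfold ivl
  rw [Finset.sum_sigma]
  apply Finset.sum_congr rfl
  intro l _
  rw [← Finset.sum_fiberwise_of_maps_to (s := J l) (t := exi (J l)) (g := nxt (J l))
    (fun j hj => (nxt_spec hj).2)]
  apply Finset.sum_congr rfl
  intro e _
  unfold cf
  rw [Finset.sum_smul]
  change ∑ j ∈ grp (J l) e, bit (x l) j • w l j = _
  apply Finset.sum_congr rfl
  intro j hj
  obtain ⟨h1, h2⟩ := grp_eq (J := J l) (e := e)
  have key : ∀ t, st (J l) e + t ≤ e → w l (st (J l) e + t) = (2:ℤ) ^ t • w l (st (J l) e) := by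
    intro t
    induction t with
    | zero => intro _; simp
    | succ t ih =>
      intro ht
      have h3 : st (J l) e + t ∈ J l := by
        have : st (J l) e + t ∈ grp (J l) e := by rw [h1, Finset.mem_Icc]; omega
        exact (Finset.mem_filter.1 this).1
      have h4 : st (J l) e + t + 1 ∈ J l := by
        have : st (J l) e + t + 1 ∈ grp (J l) e := by rw [h1, Finset.mem_Icc]; omega
        exact (Finset.mem_filter.1 this).1
      rw [← add_assoc, hw l _ h3 h4, ih (by omega), smul_smul, pow_succ, mul_comm]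
  rw [h1, Finset.mem_Icc] at hj
  obtain ⟨t, ht⟩ := Nat.exists_eq_add_of_le hj.1
  have h5 := key t (by omega)
  rw [← ht] at h5
  rw [h5, smul_smul]
  congr 2
  rw [ht]; simp

/-- the vector with the digits of `x` at the places in `J` -/
def kp (J : Fin d → Finset ℕ) (x : Fin d → ℤ) : Fin d → ℤ := fun l => keep (J l) (x l)

theorem kp_eq (J : Fin d → Finset ℕ) (x : Fin d → ℤ) :
    kp J x = ∑ l, ∑ j ∈ J l, bit (x l) j • (Pi.single l ((2:ℤ) ^ j) : Fin d → ℤ) := by
  funext l
  rw [Finset.sum_apply, Finset.sum_eq_single l]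
  · unfold kp keep
    rw [Finset.sum_apply]
    apply Finset.sum_congr rfl
    intro j _
    simp
  · intro l' _ h
    rw [Finset.sum_apply]
    apply Finset.sum_eq_zero
    intro j _
    simp [Ne.symm h]
  · intro h; exact absurd (Finset.mem_univ l) h

theorem kp_prog (J : Fin d → Finset ℕ) (x : Fin d → ℤ) :
    kp J x = ∑ p ∈ ivl J, cf J x p • (Pi.single p.1 ((2:ℤ) ^ (st (J p.1) p.2)) : Fin d → ℤ) := by
  rw [kp_eq]
  apply regroup J (fun l j => (Pi.single l ((2:ℤ) ^ j) : Fin d → ℤ))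
  intro l j _ _
  rw [← Pi.single_smul]
  congr 1
  rw [smul_eq_mul, pow_succ, mul_comm]

end Run7.h912.DG
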