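import Pool.Agent.Run7.h912.DG.Level

/-! Choosing one class at each frozen digit. -/

set_option autoImplicit false

namespace Run7.h912.DG

open Real Finset
open scoped Classical Pointwise

variable {G : Type*} [AddCommGroup G] {Γ : ℕ → AddSubgroup G} {A : Finset G}

/-- weight of the digits `k`, `m ≤ k < N`, outside `J` -/
noncomputable def wt (Γ : ℕ → AddSubgroup G) (A : Finset G) (J : Finset ℕ) (N m : ℕ) (x : G) : ℝ :=
  ∏ k ∈ (Finset.range N).filter (fun k => m ≤ k ∧ k ∉ J), pp Γ k A x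

theorem wt_nonneg (hΓ : Chain Γ) (J : Finset ℕ) (N m : ℕ) {x : G} (hx : x ∈ A) :
    0 ≤ wt Γ A J N m x :=
  Finset.prod_nonneg (fun k _ => (pp_mem hΓ k hx).1)

theorem wt_last (J : Finset ℕ) (N : ℕ) (x : G) : wt Γ A J N N x = 1 := by
  unfold wt
  have : (Finset.range N).filter (fun k => N ≤ k ∧ k ∉ J) = ∅ := by
    ext k; simp; intro h1 h2; omega
  rw [this, Finset.prod_empty]

theorem wt_mem (J : Finset ℕ) {N m : ℕ} (hm : m ∈ J) (x : G) :
    wt Γ A J N m x = wt Γ A J N (m + 1) x := by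
  unfold wt
  congr 1
  ext k
  simp only [Finset.mem_filter, Finset.mem_range]
  constructor
  · rintro ⟨h1, h2, h3⟩
    refine ⟨h1, ?_, h3⟩
    rcases h2.eq_or_lt with h | h
    · exact absurd (h ▸ hm) h3
    · exact h
  · rintro ⟨h1, h2, h3⟩
    exact ⟨h1, by omega, h3⟩

theorem wt_not_mem (J : Finset ℕ) {N m : ℕ} (hmN : m < N) (hm : m ∉ J) (x : G) :
    wt Γ A J N m x = pp Γ m A x * wt Γ A J N (m + 1) x := by
  unfold wt
  have : (Finset.range N).filter (fun k => m ≤ k ∧ k ∉ J) =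
      insert m ((Finset.range N).filter (fun k => m + 1 ≤ k ∧ k ∉ J)) := by
    ext k
    simp only [Finset.mem_filter, Finset.mem_range, Finset.mem_insert]
    constructor
    · rintro ⟨h1, h2, h3⟩
      rcases h2.eq_or_lt with h | h
      · exact Or.inl h.symm
      · exact Or.inr ⟨h1, h, h3⟩
    · rintro (rfl | ⟨h1, h2, h3⟩)
      · exact ⟨hmN, le_rfl, hm⟩
      · exact ⟨h1, by omega, h3⟩
  rw [this, Finset.prod_insert]
  simp

theorem wt_zero (hΓ : Chain Γ) (hA : A.Nonempty) (J : Finset ℕ) (N : ℕ) :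
    A.card * Real.exp (-∑ k ∈ (Finset.range N).filter (fun k => k ∉ J), hE Γ k A) ≤
      ∑ x ∈ A, wt Γ A J N 0 x := by
  have hA0 : (0:ℝ) < A.card := by exact_mod_cast hA.card_pos
  set I := (Finset.range N).filter (fun k => k ∉ J) with hI
  set T := ∑ k ∈ I, hE Γ k A with hT
  set t : G → ℝ := fun x => ∑ k ∈ I, -Real.log (pp Γ k A x) with ht
  have h1 : ∀ x ∈ A, Real.exp (-T) * (1 + (T - t x)) ≤ wt Γ A J N 0 x := by
    intro x hx
    have h2 : wt Γ A J N 0 x = Real.exp (-(t x)) := by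
      have h3 : wt Γ A J N 0 x = ∏ k ∈ I, pp Γ k A x := by
        unfold wt
        congr 1
        ext k; simp [hI]
      rw [h3, ht]
      simp only [Finset.sum_neg_distrib, neg_neg]
      rw [Real.exp_sum]
      apply Finset.prod_congr rfl
      intro k _
      rw [Real.exp_log (pp_pos hΓ k hx)]
    rw [h2]
    have h4 : Real.exp (-(t x)) = Real.exp (-T) * Real.exp (T - t x) := by
      rw [← Real.exp_add]; congr 1; ring
    rw [h4]
    apply mul_le_mul_of_nonneg_left _ (Real.exp_pos _).le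
    have := Real.add_one_le_exp (T - t x)
    linarith
  refine le_trans (le_of_eq ?_) (Finset.sum_le_sum h1)
  rw [← Finset.mul_sum, Finset.sum_add_distrib, Finset.sum_sub_distrib]
  have h2 : ∑ x ∈ A, t x = A.card * T := by
    rw [ht, hT, Finset.sum_comm, Finset.mul_sum]
    apply Finset.sum_congr rfl
    intro k _
    rw [log_sum_eq hΓ k]
    unfold hE
    field_simp
  rw [h2]
  simp only [Finset.sum_const, nsmul_eq_mul, mul_one]
  ring

theorem prune_step (hΓ : Chain Γ) (m : ℕ) (S : Finset G) (hS : S ⊆ A) (w : G → ℝ)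
    (hw : ∀ x ∈ S, 0 ≤ w x) :
    ∃ S' ⊆ S, (∀ x ∈ S', ∀ y ∈ S', y - x ∈ Γ m → y - x ∈ Γ (m + 1)) ∧
      ∑ x ∈ S, pp Γ m A x * w x ≤ ∑ x ∈ S', w x := by
  have h2 := hΓ.isTwo m
  set pj : G → G ⧸ Γ m := fun x => (QuotientAddGroup.mk x) with hpj
  have hpjeq : ∀ x y, pj x = pj y ↔ rel (Γ m) x y := by
    intro x y
    rw [hpj]
    simp only [QuotientAddGroup.eq]
    unfold rel
    rw [neg_add_eq_sub]
  set cw : G → ℝ := fun r => ∑ x ∈ S.filter (rel (Γ (m + 1)) r), w x with hcw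
  have hex : ∀ q : G ⧸ Γ m, ∃ r : G, q ∈ S.image pj →
      (r ∈ S ∧ pj r = q ∧ ∀ x ∈ S, pj x = q → cw x ≤ cw r) := by
    intro q
    by_cases hq : q ∈ S.image pj
    · have hne : (S.filter (fun x => pj x = q)).Nonempty := by
        obtain ⟨x, hx, hxq⟩ := Finset.mem_image.1 hq
        exact ⟨x, Finset.mem_filter.2 ⟨hx, hxq⟩⟩
      obtain ⟨r, hr, hmax⟩ := Finset.exists_max_image _ cw hne
      exact ⟨r, fun _ => ⟨(Finset.mem_filter.1 hr).1, (Finset.mem_filter.1 hr).2,
        fun x hx hxq => hmax x (Finset.mem_filter.2 ⟨hx, hxq⟩)⟩⟩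
    · exact ⟨0, fun h => absurd h hq⟩
  choose r hr using hex
  set S' := S.filter (fun x => rel (Γ (m + 1)) (r (pj x)) x) with hS'
  refine ⟨S', Finset.filter_subset _ _, ?_, ?_⟩
  · intro x hx y hy hxy
    have h3 : pj x = pj y := (hpjeq x y).2 hxy
    have hx' := (Finset.mem_filter.1 hx).2
    have hy' := (Finset.mem_filter.1 hy).2
    rw [← h3] at hy'
    exact h2.eqS.trans (h2.eqS.symm hx') hy'
  · have hmap : ∀ x ∈ S, pj x ∈ S.image pj := fun x hx => Finset.mem_image_of_mem _ hx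
    have hmap' : ∀ x ∈ S', pj x ∈ S.image pj := fun x hx => hmap x (Finset.mem_filter.1 hx).1
    rw [← Finset.sum_fiberwise_of_maps_to hmap, ← Finset.sum_fiberwise_of_maps_to hmap']
    apply Finset.sum_le_sum
    intro q hq
    obtain ⟨hrS, hrq, hrmax⟩ := hr q hq
    have hrA := hS hrS
    have e1 : S'.filter (fun x => pj x = q) = S.filter (rel (Γ (m + 1)) (r q)) := by
      ext x
      simp only [hS', Finset.mem_filter]
      constructor
      · rintro ⟨⟨hx, h⟩, hxq⟩
        rw [hxq] at h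
        exact ⟨hx, h⟩
      · rintro ⟨hx, h⟩
        have hxq : pj x = q := by
          rw [← hrq]
          exact ((hpjeq _ _).2 (h2.sub _ _ h)).symm
        refine ⟨⟨hx, ?_⟩, hxq⟩
        rw [hxq]; exact h
    rw [e1]
    have e2 : S.filter (fun x => pj x = q) = S.filter (rel (Γ (m + 1)) (r q)) ∪
        S.filter (fun x => rel (Γ m) (r q) x ∧ ¬ rel (Γ (m + 1)) (r q) x) := by
      ext x
      simp only [Finset.mem_filter, Finset.mem_union]
      have h3 : pj x = q ↔ rel (Γ m) (r q) x := by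
        rw [← hpjeq, hrq]; exact eq_comm
      rw [h3]
      constructor
      · rintro ⟨hx, h⟩
        by_cases h4 : rel (Γ (m + 1)) (r q) x
        · exact Or.inl ⟨hx, h4⟩
        · exact Or.inr ⟨hx, h, h4⟩
      · rintro (⟨hx, h⟩ | ⟨hx, h, _⟩)
        · exact ⟨hx, h2.sub _ _ h⟩
        · exact ⟨hx, h⟩
    have hd : Disjoint (S.filter (rel (Γ (m + 1)) (r q)))
        (S.filter (fun x => rel (Γ m) (r q) x ∧ ¬ rel (Γ (m + 1)) (r q) x)) := by
      rw [Finset.disjoint_filter]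
      rintro x _ h ⟨_, h'⟩
      exact h' h
    rw [e2, Finset.sum_union hd]
    set a := pp Γ m A (r q) with ha
    have ha1 := pp_mem hΓ m hrA
    have e3 : ∑ x ∈ S.filter (rel (Γ (m + 1)) (r q)), pp Γ m A x * w x = a * cw (r q) := by
      rw [hcw, Finset.mul_sum]
      apply Finset.sum_congr rfl
      intro x hx
      have : pp Γ m A x = a := pr_same h2 (Finset.mem_filter.1 hx).2
      rw [this]
    have e4 : ∑ x ∈ S.filter (fun x => rel (Γ m) (r q) x ∧ ¬ rel (Γ (m + 1)) (r q) x),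
        pp Γ m A x * w x =
        (1 - a) * ∑ x ∈ S.filter (fun x => rel (Γ m) (r q) x ∧ ¬ rel (Γ (m + 1)) (r q) x), w x := by
      rw [Finset.mul_sum]
      apply Finset.sum_congr rfl
      intro x hx
      have : pp Γ m A x = 1 - a :=
        pr_other h2 hrA (Finset.mem_filter.1 hx).2.1 (Finset.mem_filter.1 hx).2.2
      rw [this]
    have hcw0 : 0 ≤ cw (r q) := Finset.sum_nonneg (fun x hx => hw x (Finset.mem_filter.1 hx).1)
    have e5 : ∑ x ∈ S.filter (fun x => rel (Γ m) (r q) x ∧ ¬ rel (Γ (m + 1)) (r q) x), w x ≤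
        cw (r q) := by
      rcases (S.filter (fun x => rel (Γ m) (r q) x ∧ ¬ rel (Γ (m + 1)) (r q) x)).eq_empty_or_nonempty
        with h | ⟨x₁, hx₁⟩
      · rw [h, Finset.sum_empty]; exact hcw0
      · rw [Finset.mem_filter] at hx₁
        have h3 : S.filter (fun x => rel (Γ m) (r q) x ∧ ¬ rel (Γ (m + 1)) (r q) x) =
            S.filter (rel (Γ (m + 1)) x₁) := by
          ext x
          simp only [Finset.mem_filter, and_congr_right_iff]
          intro _
          constructor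
          · rintro ⟨h4, h5⟩
            exact h2.two _ _ _ hx₁.2.1 h4 hx₁.2.2 h5
          · intro h4
            refine ⟨h2.eqR.trans hx₁.2.1 (h2.sub _ _ h4), fun h5 => hx₁.2.2 ?_⟩
            exact h2.eqS.trans h5 (h2.eqS.symm h4)
        rw [h3]
        apply hrmax x₁ hx₁.1
        rw [← hrq]
        exact ((hpjeq _ _).2 hx₁.2.1).symm
    rw [e3, e4]
    have : ∑ x ∈ S.filter (rel (Γ (m + 1)) (r q)), w x = cw (r q) := rfl
    rw [this]
    nlinarith [mul_le_mul_of_nonneg_left e5 (sub_nonneg.2 ha1.2)]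

theorem prune (hΓ : Chain Γ) (hA : A.Nonempty) (J : Finset ℕ) (N : ℕ) :
    ∃ A' ⊆ A, A.card * Real.exp (-∑ k ∈ (Finset.range N).filter (fun k => k ∉ J), hE Γ k A) ≤
        (A'.card : ℝ) ∧
      ∀ k < N, k ∉ J → ∀ x ∈ A', ∀ y ∈ A', y - x ∈ Γ k → y - x ∈ Γ (k + 1) := by
  have main : ∀ m ≤ N, ∃ S ⊆ A, ∑ x ∈ A, wt Γ A J N 0 x ≤ ∑ x ∈ S, wt Γ A J N m x ∧
      ∀ k < m, k ∉ J → ∀ x ∈ S, ∀ y ∈ S, y - x ∈ Γ k → y - x ∈ Γ (k + 1) := by
    intro m
    induction m with
    | zero => intro _; exact ⟨A, Finset.Subset.refl _, le_rfl, fun k hk => absurd hk (by omega)⟩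
    | succ m ih =>
      intro hm
      obtain ⟨S, hSA, hS1, hS2⟩ := ih (by omega)
      by_cases hmJ : m ∈ J
      · refine ⟨S, hSA, ?_, ?_⟩
        · refine hS1.trans (le_of_eq ?_)
          exact Finset.sum_congr rfl (fun x _ => wt_mem J hmJ x)
        · intro k hk hkJ
          rcases Nat.lt_succ_iff_lt_or_eq.1 hk with h | h
          · exact hS2 k h hkJ
          · exact absurd (h ▸ hmJ) hkJ
      · obtain ⟨S', hS', h1, h2⟩ := prune_step (A := A) hΓ m S hSA (wt Γ A J N (m + 1))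
          (fun x hx => wt_nonneg hΓ J N _ (hSA hx))
        refine ⟨S', hS'.trans hSA, ?_, ?_⟩
        · refine hS1.trans (le_trans (le_of_eq ?_) h2)
          exact Finset.sum_congr rfl (fun x _ => wt_not_mem J (by omega) hmJ x)
        · intro k hk hkJ x hx y hy
          rcases Nat.lt_succ_iff_lt_or_eq.1 hk with h | h
          · exact hS2 k h hkJ x (hS' hx) y (hS' hy)
          · subst h
            exact h1 x hx y hy
  obtain ⟨S, hSA, hS1, hS2⟩ := main N le_rfl
  refine ⟨S, hSA, ?_, hS2⟩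
  refine (wt_zero hΓ hA J N).trans (hS1.trans (le_of_eq ?_))
  rw [Finset.sum_congr rfl (fun x _ => wt_last J N x)]
  simp

end Run7.h912.DG
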