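import Pool.Agent.Run7.h912.DG.Prune

/-! The chain of the subgroups of `ℤ ^ d` given by the binary digits. -/

set_option autoImplicit false

namespace Run7.h912.DG

open Real Finset
open scoped Classical Pointwise

variable {d : ℕ}

/-- number of digits of the coordinate `l` among the first `k` digits -/
def ex (d k l : ℕ) : ℕ := (k + (d - 1 - l)) / d

theorem ex_zero {l : ℕ} (hl : l < d) : ex d 0 l = 0 := by
  unfold ex
  exact Nat.div_eq_of_lt (by omega)

theorem ex_add_d {k l : ℕ} (hl : l < d) : ex d (k + d) l = ex d k l + 1 := by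
  unfold ex
  have : k + d + (d - 1 - l) = (k + (d - 1 - l)) + d := by ring
  rw [this, Nat.add_div_right _ (by omega)]

theorem ex_eq {j l l' : ℕ} (hl : l < d) (hl' : l' < d) :
    ex d (d * j + l') l = if l < l' then j + 1 else j := by
  unfold ex
  have h1 : d * j + l' + (d - 1 - l) = (l' + (d - 1 - l)) + d * j := by ring
  rw [h1, Nat.add_mul_div_left _ _ (by omega)]
  split_ifs with h
  · have : (l' + (d - 1 - l)) / d = 1 := by
      rw [Nat.div_eq_iff (by omega)]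
      omega
    omega
  · have : (l' + (d - 1 - l)) / d = 0 := Nat.div_eq_of_lt (by omega)
    omega

theorem ex_succ {k l : ℕ} (hl : l < d) : ex d (k + 1) l = ex d k l + if k % d = l then 1 else 0 := by
  have hd : 0 < d := by omega
  have h1 : k = d * (k / d) + k % d := (Nat.div_add_mod k d).symm
  have h2 : k % d < d := Nat.mod_lt _ hd
  set j := k / d
  set r := k % d
  rw [h1, ex_eq hl h2]
  by_cases h3 : r + 1 < d
  · rw [show d * j + r + 1 = d * j + (r + 1) by ring, ex_eq hl h3]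
    split_ifs <;> omega
  · have h4 : r + 1 = d := by omega
    rw [show d * j + r + 1 = d * (j + 1) + 0 by rw [mul_add]; omega, ex_eq hl hd]
    split_ifs <;> omega

/-- the chain of subgroups -/
def Gam (d : ℕ) (k : ℕ) : AddSubgroup (Fin d → ℤ) where
  carrier := {x | ∀ l : Fin d, (2 : ℤ) ^ (ex d k l) ∣ x l}
  zero_mem' := fun l => by simp
  add_mem' := fun {a b} ha hb l => dvd_add (ha l) (hb l)
  neg_mem' := fun {a} ha l => by
    change _ ∣ -(a l)
    exact (dvd_neg).2 (ha l)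

theorem mem_Gam {k : ℕ} {x : Fin d → ℤ} : x ∈ Gam d k ↔ ∀ l : Fin d, (2 : ℤ) ^ (ex d k l) ∣ x l :=
  Iff.rfl

theorem mem_Gam_mul {m : ℕ} {x : Fin d → ℤ} : x ∈ Gam d (d * m) ↔ ∀ l : Fin d, (2 : ℤ) ^ m ∣ x l := by
  rw [mem_Gam]
  apply forall_congr'
  intro l
  have hd : 0 < d := lt_of_le_of_lt (Nat.zero_le _) l.2
  have : ex d (d * m) l = m := by
    have := ex_eq (j := m) l.2 hd
    simpa using this
  rw [this]

theorem odd_add_odd {e : ℕ} {a b : ℤ} (ha : (2:ℤ) ^ e ∣ a) (hb : (2:ℤ) ^ e ∣ b)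
    (ha' : ¬ (2:ℤ) ^ (e + 1) ∣ a) (hb' : ¬ (2:ℤ) ^ (e + 1) ∣ b) : (2:ℤ) ^ (e + 1) ∣ a + b := by
  obtain ⟨u, rfl⟩ := ha
  obtain ⟨v, rfl⟩ := hb
  have h0 : (2:ℤ) ^ e ≠ 0 := by positivity
  rw [pow_succ, mul_dvd_mul_iff_left h0] at ha' hb'
  rw [← mul_add, pow_succ, mul_dvd_mul_iff_left h0]
  omega

theorem chain_Gam (d : ℕ) : Chain (Gam d) where
  top := by
    ext x
    simp only [mem_Gam, AddSubgroup.mem_top, iff_true]
    intro l
    rw [ex_zero l.2]; simp
  anti := by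
    intro k x hx l
    refine dvd_trans (pow_dvd_pow 2 ?_) (hx l)
    rw [ex_succ l.2]; omega
  two := by
    intro k a ha b hb ha' hb' l
    have key : ∀ l' : Fin d, k % d ≠ l' → ex d (k + 1) l' = ex d k l' := by
      intro l' h
      rw [ex_succ l'.2, if_neg h]; rfl
    rcases Nat.eq_zero_or_pos d with h0 | hd
    · subst h0; exact l.elim0
    have hr : k % d < d := Nat.mod_lt _ hd
    have keyr : ex d (k + 1) (⟨k % d, hr⟩ : Fin d) = ex d k (⟨k % d, hr⟩ : Fin d) + 1 := by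
      rw [ex_succ hr, if_pos rfl]
    have hbad : ∀ c ∈ Gam d k, c ∉ Gam d (k + 1) → ¬ (2:ℤ) ^ (ex d k (⟨k % d, hr⟩ : Fin d) + 1) ∣
        c ⟨k % d, hr⟩ := by
      intro c hc hc' h
      apply hc'
      intro l'
      by_cases hl' : k % d = l'
      · have : l' = ⟨k % d, hr⟩ := Fin.ext hl'.symm
        subst this
        rw [keyr]; exact h
      · rw [key l' hl']; exact hc l'
    by_cases hl : k % d = l
    · have : l = ⟨k % d, hr⟩ := Fin.ext hl.symm
      subst this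
      rw [keyr]
      exact odd_add_odd (ha _) (hb _) (hbad a ha ha') (hbad b hb hb')
    · rw [key l hl]
      exact dvd_add (ha l) (hb l)

theorem dbl_Gam (d k : ℕ) (x : Fin d → ℤ) : x + x ∈ Gam d (k + d) ↔ x ∈ Gam d k := by
  rw [mem_Gam, mem_Gam]
  apply forall_congr'
  intro l
  rw [ex_add_d l.2, pow_succ, Pi.add_apply, ← mul_two, mul_dvd_mul_iff_right (by norm_num)]

theorem exists_sep (A : Finset (Fin d → ℤ)) :
    ∃ M : ℕ, ∀ x ∈ A, ∀ y ∈ A, y - x ∈ Gam d (d * M) → x = y := by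
  obtain ⟨M, hM⟩ : ∃ M : ℕ, ∀ x ∈ A, ∀ y ∈ A, ∀ l, |y l - x l| < 2 ^ M := by
    obtain ⟨B, hB⟩ : ∃ B : ℕ, ∀ p ∈ (A ×ˢ A) ×ˢ (Finset.univ : Finset (Fin d)),
        (p.1.2 p.2 - p.1.1 p.2).natAbs ≤ B :=
      ⟨_, fun p hp => Finset.le_sup (f := fun p : ((Fin d → ℤ) × (Fin d → ℤ)) × Fin d =>
        (p.1.2 p.2 - p.1.1 p.2).natAbs) hp⟩
    refine ⟨B, fun x hx y hy l => ?_⟩
    have h1 : (y l - x l).natAbs ≤ B := hB ((x, y), l) (by simp [hx, hy])
    have h2 : B < 2 ^ B := Nat.lt_two_pow_self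
    have h3 : (y l - x l).natAbs < 2 ^ B := lt_of_le_of_lt h1 h2
    rw [Int.abs_eq_natAbs]
    exact_mod_cast h3
  refine ⟨M, fun x hx y hy h => ?_⟩
  rw [mem_Gam_mul] at h
  funext l
  have h1 : y l - x l = 0 := Int.eq_zero_of_abs_lt_dvd (h l) (hM x hx y hy l)
  linarith

/-- `j`-th binary digit (of the 2-adic expansion) -/
def bit (a : ℤ) (j : ℕ) : ℤ := (a / 2 ^ j) % 2

theorem bit_mem (a : ℤ) (j : ℕ) : bit a j = 0 ∨ bit a j = 1 := by unfold bit; omega

/-- `a` and `b` agree modulo `2 ^ (j + 1)` iff they agree modulo `2 ^ j` and the digits agree -/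
theorem bit_congr {a b : ℤ} {m j : ℕ} (h : (2:ℤ) ^ m ∣ a - b) (hj : j < m) : bit a j = bit b j := by
  obtain ⟨c, hc⟩ := h
  obtain ⟨t, rfl⟩ := Nat.exists_eq_add_of_lt hj
  have h1 : a = b + 2 ^ j * (2 * (2 ^ t * c)) := by
    have : (2:ℤ) ^ (j + t + 1) * c = 2 ^ j * (2 * (2 ^ t * c)) := by ring
    linarith
  unfold bit
  rw [h1, Int.add_mul_ediv_left _ _ (by positivity)]
  omega

theorem bit_step {a b : ℤ} {j : ℕ} (h : (2:ℤ) ^ j ∣ a - b) (hb : bit a j = bit b j) :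
    (2:ℤ) ^ (j + 1) ∣ a - b := by
  obtain ⟨c, hc⟩ := h
  have h1 : a = b + 2 ^ j * c := by linarith
  unfold bit at hb
  rw [h1, Int.add_mul_ediv_left _ _ (by positivity)] at hb
  have h2 : (2:ℤ) ∣ c := by omega
  obtain ⟨e, rfl⟩ := h2
  exact ⟨e, by rw [hc]; ring⟩

/-- the number with the digits of `a` at the places in `T`, and `0` elsewhere -/
def keep (T : Finset ℕ) (a : ℤ) : ℤ := ∑ j ∈ T, bit a j * 2 ^ j

theorem keep_sub {T : Finset ℕ} {a b : ℤ} {m : ℕ} (h : (2:ℤ) ^ m ∣ a - b) :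
    keep T a - keep T b = ∑ j ∈ T.filter (fun j => m ≤ j), (bit a j - bit b j) * 2 ^ j := by
  unfold keep
  rw [← Finset.sum_sub_distrib, Finset.sum_filter]
  apply Finset.sum_congr rfl
  intro j _
  split_ifs with hj
  · ring
  · rw [bit_congr h (by omega)]; ring

theorem keep_dvd {T : Finset ℕ} {a b : ℤ} {m : ℕ} (h : (2:ℤ) ^ m ∣ a - b) :
    (2:ℤ) ^ m ∣ keep T a - keep T b := by
  rw [keep_sub h]
  apply Finset.dvd_sum
  intro j hj
  exact dvd_mul_of_dvd_right (pow_dvd_pow 2 (Finset.mem_filter.1 hj).2) _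

theorem keep_bit {T : Finset ℕ} {a b : ℤ} {j : ℕ} (h : (2:ℤ) ^ j ∣ a - b) (hj : j ∈ T)
    (hk : (2:ℤ) ^ (j + 1) ∣ keep T a - keep T b) : bit a j = bit b j := by
  rw [keep_sub h] at hk
  have h1 : ∑ i ∈ T.filter (fun i => j ≤ i), (bit a i - bit b i) * 2 ^ i =
      (bit a j - bit b j) * 2 ^ j +
        ∑ i ∈ T.filter (fun i => j + 1 ≤ i), (bit a i - bit b i) * 2 ^ i := by
    have : T.filter (fun i => j ≤ i) = insert j (T.filter (fun i => j + 1 ≤ i)) := by
      ext i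
      simp only [Finset.mem_filter, Finset.mem_insert]
      constructor
      · rintro ⟨h1, h2⟩
        rcases h2.eq_or_lt with h3 | h3
        · exact Or.inl h3.symm
        · exact Or.inr ⟨h1, h3⟩
      · rintro (rfl | ⟨h1, h2⟩)
        · exact ⟨hj, le_rfl⟩
        · exact ⟨h1, by omega⟩
    rw [this, Finset.sum_insert (by simp)]
  have h2 : (2:ℤ) ^ (j + 1) ∣ ∑ i ∈ T.filter (fun i => j + 1 ≤ i), (bit a i - bit b i) * 2 ^ i := by
    apply Finset.dvd_sum
    intro i hi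
    exact dvd_mul_of_dvd_right (pow_dvd_pow 2 (Finset.mem_filter.1 hi).2) _
  rw [h1] at hk
  have h3 := (dvd_add_left h2).1 hk
  have h4 : (2:ℤ) ∣ bit a j - bit b j := by
    rw [pow_succ, mul_comm (bit a j - bit b j), mul_dvd_mul_iff_left (by positivity)] at h3
    exact h3
  have h5 := bit_mem a j
  have h6 := bit_mem b j
  omega

end Run7.h912.DG
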